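import Mathlib

set_option autoImplicit false

namespace Pool.Agent.Results.MP_221c76_co.InfClasses

universe u

/-- A graph, possibly infinite, loops and multiple edges allowed: a type of vertices, a type of
edges, and for each edge the unordered pair of its ends (a loop has both ends equal). -/
structure MGraph : Type (u + 1) where
  V : Type u
  E : Type u
  ends : E → Sym2 V

/-- An isomorphism of graphs: bijections on vertices and on edges that respect the ends. -/
structure Iso (G H : MGraph.{u}) where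
  onV : G.V ≃ H.V
  onE : G.E ≃ H.E
  ends_eq : ∀ x : G.E, H.ends (onE x) = (G.ends x).map onV

/-- A subgraph of `Γ`: a set of vertices and a set of edges such that all ends of the chosen
edges are chosen. -/
structure Sub (Γ : MGraph.{u}) where
  verts : Set Γ.V
  edges : Set Γ.E
  closed : ∀ e ∈ edges, ∀ v ∈ Γ.ends e, v ∈ verts

/-- A subgraph, seen as a graph. -/
def Sub.toGraph {Γ : MGraph.{u}} (S : Sub Γ) : MGraph.{u} where
  V := {v // v ∈ S.verts}
  E := {e // e ∈ S.edges}
  ends := fun e => (Γ.ends e.1).attachWith (S.closed e.1 e.2)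

/-- The edge sets of the subgraphs of `Γ` that are isomorphic to some member of `P`. -/
def copies (P : MGraph.{u} → Prop) (Γ : MGraph.{u}) : Set (Set Γ.E) :=
  {C | ∃ S : Sub Γ, S.edges = C ∧ ∃ G : MGraph.{u}, P G ∧ Nonempty (Iso S.toGraph G)}

/-- The circuit axioms (C1) and (C2). -/
def CircuitAxioms {E : Type u} (F : Set (Set E)) : Prop :=
  (∀ C ∈ F, ∀ C' ∈ F, ¬ C ⊂ C') ∧
  (∀ C' ∈ F, ∀ C'' ∈ F, C' ≠ C'' → ∀ e ∈ C' ∩ C'', ∃ C ∈ F, C ⊆ (C' ∪ C'') \ {e})

/-- A generalized matroidal family of graphs: a non-empty collection `P` such that in every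
graph `Γ` the edge sets of the subgraphs isomorphic to some member of `P` satisfy the circuit
axioms. -/
def IsGenMatroidalFamily (P : MGraph.{u} → Prop) : Prop :=
  (∃ G, P G) ∧ ∀ Γ : MGraph.{u}, CircuitAxioms (copies P Γ)

open Classical in
/-- Subdividing the edge `e` with ends `a`, `b`: the new vertex is `none`, and `e` is replaced by
the two edges `some e` (from `a` to the new vertex) and `none` (from the new vertex to `b`). -/
noncomputable def subdivide (G : MGraph.{u}) (e : G.E) (a b : G.V) : MGraph.{u} where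
  V := Option G.V
  E := Option G.E
  ends := fun x => match x with
    | none => s(none, some b)
    | some y => if y = e then s(some a, none) else (G.ends y).map some

/-- `H` arises from `G` by subdividing one edge (up to isomorphism). -/
def Subdivides (G H : MGraph.{u}) : Prop :=
  ∃ (e : G.E) (a b : G.V), G.ends e = s(a, b) ∧ Nonempty (Iso (subdivide G e a b) H)

/-- Two graphs are homeomorphic if both arise from a common graph by finite (possibly empty)
sequences of subdivisions (up to isomorphism). -/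
def Homeomorphic (G H : MGraph.{u}) : Prop :=
  ∃ K G' H' : MGraph.{u}, Relation.ReflTransGen Subdivides K G' ∧ Nonempty (Iso G' G) ∧
    Relation.ReflTransGen Subdivides K H' ∧ Nonempty (Iso H' H)

/-- The homeomorphism classes of `P`: the classes of the equivalence relation generated by
homeomorphism on the members of `P`. -/
def HomeoClasses (P : MGraph.{u} → Prop) : Type (u + 1) :=
  Quot (fun G H : {G : MGraph.{u} // P G} => Homeomorphic G.1 H.1)

open Classical

section Abstract

variable {E : Type u}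

/-- elements of `Z` supported in `A` -/
noncomputable def ZS (Z : Submodule (ZMod 2) (E →₀ ZMod 2)) (A : Set E) :
    Submodule (ZMod 2) (E →₀ ZMod 2) :=
  Z ⊓ Finsupp.supported (ZMod 2) (ZMod 2) A

variable {Z : Submodule (ZMod 2) (E →₀ ZMod 2)} {A B : Set E}

theorem mem_ZS {z : E →₀ ZMod 2} : z ∈ ZS Z A ↔ z ∈ Z ∧ ∀ x, z x ≠ 0 → x ∈ A := by
  unfold ZS
  rw [Submodule.mem_inf, Finsupp.mem_supported]
  constructor
  · rintro ⟨h1, h2⟩
    exact ⟨h1, fun x hx => h2 (by simpa using hx)⟩
  · rintro ⟨h1, h2⟩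
    exact ⟨h1, fun x hx => h2 x (by simpa using hx)⟩

theorem ZS_mono (h : A ⊆ B) : ZS Z A ≤ ZS Z B := by
  intro z hz
  rw [mem_ZS] at *
  exact ⟨hz.1, fun x hx => h (hz.2 x hx)⟩

theorem ZS_fin (hA : A.Finite) : FiniteDimensional (ZMod 2) (ZS Z A) := by
  have : Finite A := hA
  have h1 : FiniteDimensional (ZMod 2) (Finsupp.supported (ZMod 2) (ZMod 2) A) :=
    Module.Finite.equiv (Finsupp.supportedEquivFinsupp (R := ZMod 2) (M := ZMod 2) A).symm
  exact Submodule.finiteDimensional_of_le (inf_le_right)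

/-- rank of a set -/
noncomputable def rk (Z : Submodule (ZMod 2) (E →₀ ZMod 2)) (A : Set E) : ℕ :=
  Module.finrank (ZMod 2) (ZS Z A)

theorem rk_mono (hB : B.Finite) (h : A ⊆ B) : rk Z A ≤ rk Z B := by
  have := ZS_fin (Z := Z) hB
  exact Submodule.finrank_mono (ZS_mono h)

theorem ZS_bridge {x : E} (h : ∀ z ∈ ZS Z A, z x = 0) : ZS Z (A \ {x}) = ZS Z A := by
  apply le_antisymm (ZS_mono Set.sdiff_subset)
  intro z hz
  have h0 := h z hz
  rw [mem_ZS] at *
  refine ⟨hz.1, fun y hy => ⟨hz.2 y hy, ?_⟩⟩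
  rintro rfl
  exact hy h0

theorem rk_drop {x : E} (hA : A.Finite) (h : ∃ z ∈ ZS Z A, z x ≠ 0) :
    rk Z A = rk Z (A \ {x}) + 1 := by
  have hfd := ZS_fin (Z := Z) hA
  obtain ⟨z0, hz0, hz0x⟩ := h
  let f : ZS Z A →ₗ[ZMod 2] ZMod 2 := (Finsupp.lapply x).domRestrict (ZS Z A)
  have hsurj : Function.Surjective f := by
    intro c
    have h1 : z0 x = 1 := by
      have : ∀ c : ZMod 2, c ≠ 0 → c = 1 := by decide
      exact this _ hz0x
    refine ⟨c • ⟨z0, hz0⟩, ?_⟩
    simp [f, h1]
  have h2 := LinearMap.finrank_range_add_finrank_ker f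
  rw [LinearMap.range_eq_top.mpr hsurj] at h2
  simp only [finrank_top, Module.finrank_self] at h2
  have h3 : (LinearMap.ker f).map (ZS Z A).subtype = ZS Z (A \ {x}) := by
    ext z
    simp only [Submodule.mem_map, LinearMap.mem_ker, Submodule.coe_subtype, Subtype.exists,
      exists_and_right, exists_eq_right]
    constructor
    · rintro ⟨hz, hf⟩
      have hf' : z x = 0 := by simpa [f] using hf
      rw [mem_ZS] at *
      refine ⟨hz.1, fun y hy => ⟨hz.2 y hy, ?_⟩⟩
      rintro rfl
      exact hy hf'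
    · intro hz
      refine ⟨ZS_mono Set.sdiff_subset hz, ?_⟩
      by_contra hne
      have : z x ≠ 0 := by simpa [f] using hne
      have := (mem_ZS.mp hz).2 x this
      exact this.2 rfl
  have h4 : Module.finrank (ZMod 2) (LinearMap.ker f) = rk Z (A \ {x}) := by
    unfold rk
    rw [← h3, Submodule.finrank_map_subtype_eq]
  unfold rk at *
  omega

/-- `D` is the support of a nonzero member of `Z` and is minimal with this property -/
def IsCirc (Z : Submodule (ZMod 2) (E →₀ ZMod 2)) (D : Set E) : Prop :=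
  (∃ z ∈ Z, ∀ x, z x ≠ 0 ↔ x ∈ D) ∧ ∀ z ∈ Z, z ≠ 0 → (∀ x, z x ≠ 0 → x ∈ D) →
    ∀ x ∈ D, z x ≠ 0

/-- restriction of a chain to a set -/
noncomputable def res (D : Set E) (z : E →₀ ZMod 2) : E →₀ ZMod 2 := z.filter (· ∈ D)

theorem res_apply (D : Set E) (z : E →₀ ZMod 2) (x : E) :
    res D z x = if x ∈ D then z x else 0 := by
  unfold res
  rw [Finsupp.filter_apply]

/-- a system of finite circuits of increasing sizes that are separators of `A` -/
structure Sys (Z : Submodule (ZMod 2) (E →₀ ZMod 2)) (A : Set E) (N : ℕ) (D : ℕ → Set E) :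
    Prop where
  sub : ∀ j, N < j → D j ⊆ A
  circ : ∀ j, N < j → IsCirc Z (D j)
  card : ∀ j, N < j → (D j).ncard = j
  sep : ∀ j, N < j → ∀ z ∈ ZS Z A, res (D j) z ∈ Z

/-- the remainder -/
def rem (A : Set E) (N : ℕ) (D : ℕ → Set E) : Set E := {x | x ∈ A ∧ ∀ j, N < j → x ∉ D j}

structure Good (Z : Submodule (ZMod 2) (E →₀ ZMod 2)) (A : Set E) (N : ℕ) (D : ℕ → Set E) :
    Prop extends Sys Z A N D where
  fin : (rem A N D).Finite
  rank : rk Z (rem A N D) = N
  nobr : ∀ x ∈ A, ∃ z ∈ ZS Z A, z x ≠ 0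

theorem Sys.fin_D {N : ℕ} {D : ℕ → Set E} (h : Sys Z A N D) {j : ℕ} (hj : N < j) :
    (D j).Finite := by
  apply Set.finite_of_ncard_pos
  rw [h.card j hj]; omega

theorem circ_eq {C D : Set E} (hC : IsCirc Z C) (hD : IsCirc Z D) {z : E →₀ ZMod 2} (hz : z ∈ Z)
    (hz0 : z ≠ 0) (h1 : ∀ x, z x ≠ 0 → x ∈ C) (h2 : ∀ x, z x ≠ 0 → x ∈ D) : C = D := by
  ext x
  exact ⟨fun hx => h2 x (hC.2 z hz hz0 h1 x hx), fun hx => h1 x (hD.2 z hz hz0 h2 x hx)⟩

theorem Sys.eq_of_mem {N : ℕ} {D : ℕ → Set E} (h : Sys Z A N D) {C : Set E} (hCA : C ⊆ A)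
    (hC : IsCirc Z C) {x : E} (hxC : x ∈ C) {i : ℕ} (hi : N < i) (hx : x ∈ D i) : C = D i := by
  obtain ⟨z, hz, hzC⟩ := hC.1
  have hzA : z ∈ ZS Z A := mem_ZS.mpr ⟨hz, fun y hy => hCA ((hzC y).mp hy)⟩
  have hr := h.sep i hi z hzA
  have hrx : res (D i) z x ≠ 0 := by
    rw [res_apply, if_pos hx]; exact (hzC x).mpr hxC
  refine circ_eq hC (h.circ i hi) hr ?_ ?_ ?_
  · intro h0; rw [h0] at hrx; simp at hrx
  · intro y hy
    rw [res_apply] at hy
    split_ifs at hy with hyD
    · exact (hzC y).mp hy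
    · exact absurd rfl hy
  · intro y hy
    rw [res_apply] at hy
    split_ifs at hy with hyD
    · exact hyD
    · exact absurd rfl hy

theorem Sys.idx_eq {N : ℕ} {D : ℕ → Set E} (h : Sys Z A N D) {i j : ℕ} (hi : N < i) (hj : N < j)
    {x : E} (hxi : x ∈ D i) (hxj : x ∈ D j) : i = j := by
  have := h.eq_of_mem (h.sub i hi) (h.circ i hi) hxi hj hxj
  rw [← h.card i hi, this, h.card j hj]

theorem Sys.mono {N M : ℕ} {D : ℕ → Set E} (h : Sys Z A N D) (hNM : N ≤ M) : Sys Z A M D :=
  ⟨fun j hj => h.sub j (by omega), fun j hj => h.circ j (by omega),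
    fun j hj => h.card j (by omega), fun j hj => h.sep j (by omega)⟩

theorem Sys.bound {N : ℕ} {D : ℕ → Set E} (h : Sys Z A N D) {T : Set E} (hT : T.Finite) :
    ∃ M, N ≤ M ∧ ∀ j, M < j → ∀ x ∈ T, x ∉ D j := by
  induction T, hT using Set.Finite.induction_on with
  | empty => exact ⟨N, le_refl _, fun _ _ x hx => absurd hx (Set.notMem_empty x)⟩
  | @insert a s _ _ ih =>
    obtain ⟨M, hNM, hM⟩ := ih
    by_cases ha : ∃ i, N < i ∧ a ∈ D i
    · obtain ⟨i, hi, hai⟩ := ha
      refine ⟨max M i, le_trans hNM (le_max_left _ _), fun j hj x hx => ?_⟩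
      rcases hx with rfl | hx
      · intro hxj
        have := h.idx_eq hi (lt_of_le_of_lt (le_trans hNM (le_max_left _ _)) hj) hai hxj
        subst this
        exact absurd hj (by simp)
      · exact hM j (lt_of_le_of_lt (le_max_left _ _) hj) x hx
    · refine ⟨M, hNM, fun j hj x hx => ?_⟩
      rcases hx with rfl | hx
      · intro hxj
        exact ha ⟨j, by omega, hxj⟩
      · exact hM j hj x hx

theorem Good.succ {N : ℕ} {D : ℕ → Set E} (h : Good Z A N D) : Good Z A (N + 1) D := by
  have hrem : rem A (N + 1) D = rem A N D ∪ D (N + 1) := by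
    ext x
    simp only [rem, Set.mem_ofPred_eq, Set.mem_union]
    constructor
    · rintro ⟨hxA, hx⟩
      by_cases hxD : x ∈ D (N + 1)
      · exact Or.inr hxD
      · left
        refine ⟨hxA, fun j hj => ?_⟩
        rcases Nat.lt_or_ge (N + 1) j with h1 | h1
        · exact hx j h1
        · have : j = N + 1 := by omega
          rw [this]; exact hxD
    · rintro (⟨hxA, hx⟩ | hx)
      · exact ⟨hxA, fun j hj => hx j (by omega)⟩
      · refine ⟨h.sub (N + 1) (by omega) hx, fun j hj hxj => ?_⟩
        have := h.idx_eq (i := N + 1) (j := j) (by omega) (by omega) hx hxj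
        omega
  have hfin : (rem A N D ∪ D (N + 1)).Finite := h.fin.union (h.fin_D (by omega))
  refine ⟨h.toSys.mono (by omega), by rw [hrem]; exact hfin, ?_, h.nobr⟩
  rw [hrem]
  obtain ⟨z, hz, hzD⟩ := (h.circ (N + 1) (by omega)).1
  have hne : (D (N + 1)).Nonempty := by
    rw [← Set.ncard_pos (h.fin_D (by omega)), h.card (N + 1) (by omega)]; omega
  obtain ⟨x, hx⟩ := hne
  rw [rk_drop hfin (x := x) ⟨z, mem_ZS.mpr ⟨hz, fun y hy => Or.inr ((hzD y).mp hy)⟩,
    (hzD x).mpr hx⟩]
  congr 1
  have hxR : x ∉ rem A N D := fun hxR => hxR.2 (N + 1) (by omega) hx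
  have : ZS Z ((rem A N D ∪ D (N + 1)) \ {x}) = ZS Z (rem A N D) := by
    apply le_antisymm
    · intro w hw
      rw [mem_ZS] at hw
      have hwA : w ∈ ZS Z A := mem_ZS.mpr ⟨hw.1, fun y hy => by
        rcases (hw.2 y hy).1 with h1 | h1
        · exact h1.1
        · exact h.sub (N + 1) (by omega) h1⟩
      have hr := h.sep (N + 1) (by omega) w hwA
      have hr0 : res (D (N + 1)) w = 0 := by
        by_contra hne
        have := (h.circ (N + 1) (by omega)).2 _ hr hne (fun y hy => by
          rw [res_apply] at hy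
          split_ifs at hy with hyD
          · exact hyD
          · exact absurd rfl hy) x hx
        rw [res_apply, if_pos hx] at this
        exact (hw.2 x this).2 rfl
      rw [mem_ZS]
      refine ⟨hw.1, fun y hy => ?_⟩
      rcases (hw.2 y hy).1 with h1 | h1
      · exact h1
      · exfalso
        have h2 : res (D (N + 1)) w y = 0 := by rw [hr0]; rfl
        rw [res_apply, if_pos h1] at h2
        exact hy h2
    · apply ZS_mono
      intro y hy
      refine ⟨Or.inl hy, ?_⟩
      rintro rfl
      exact hxR hy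
  unfold rk
  rw [this]
  exact h.rank

theorem Good.mono {N M : ℕ} {D : ℕ → Set E} (h : Good Z A N D) (hNM : N ≤ M) :
    Good Z A M D := by
  induction M, hNM using Nat.le_induction with
  | base => exact h
  | succ n _ ih => exact ih.succ

/-- restricting a chain to the remainder stays in `Z` -/
theorem Good.res_rem {N : ℕ} {D : ℕ → Set E} (h : Good Z A N D) :
    ∀ (n : ℕ) (z : E →₀ ZMod 2), z ∈ ZS Z A → z.support.card ≤ n → res (rem A N D) z ∈ Z := by
  intro n
  induction n with
  | zero =>
    intro z _ hz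
    have : z = 0 := by
      rw [← Finsupp.support_eq_empty]; exact Finset.card_eq_zero.mp (by omega)
    subst this
    have : res (rem A N D) 0 = 0 := by ext y; rw [res_apply]; split_ifs <;> rfl
    rw [this]; exact Z.zero_mem
  | succ n ih =>
    intro z hz hcard
    by_cases hex : ∃ x, z x ≠ 0 ∧ x ∉ rem A N D
    · obtain ⟨x, hx, hxr⟩ := hex
      have hxA := (mem_ZS.mp hz).2 x hx
      have : ∃ j, N < j ∧ x ∈ D j := by
        by_contra hcon
        push Not at hcon
        exact hxr ⟨hxA, fun j hj => hcon j hj⟩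
      obtain ⟨j, hj, hxj⟩ := this
      have hr := h.sep j hj z hz
      have hz' : z - res (D j) z ∈ ZS Z A := by
        rw [mem_ZS]
        refine ⟨Z.sub_mem (mem_ZS.mp hz).1 hr, fun y hy => ?_⟩
        apply (mem_ZS.mp hz).2 y
        intro h0
        apply hy
        rw [Finsupp.sub_apply, res_apply, h0]
        simp
      have hsup : (z - res (D j) z).support ⊂ z.support := by
        rw [Finset.ssubset_iff_of_subset]
        · refine ⟨x, by simpa using hx, ?_⟩
          simp [res_apply, hxj]
        · intro y hy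
          simp only [Finsupp.mem_support_iff, Finsupp.sub_apply, res_apply] at *
          intro h0
          rw [h0] at hy
          simp at hy
      have hlt := Finset.card_lt_card hsup
      have := ih _ hz' (by omega)
      have heq : res (rem A N D) (z - res (D j) z) = res (rem A N D) z := by
        ext y
        rw [res_apply, res_apply]
        split_ifs with hy
        · rw [Finsupp.sub_apply, res_apply, if_neg (hy.2 j hj), sub_zero]
        · rfl
      rwa [heq] at this
    · push Not at hex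
      have : res (rem A N D) z = z := by
        ext y
        rw [res_apply]
        split_ifs with hy
        · rfl
        · by_contra hne
          exact hy (hex y (fun h0 => hne h0.symm))
      rw [this]
      exact (mem_ZS.mp hz).1

/-- (C1): no good set properly contains another -/
theorem Good.eq_of_subset {N N' : ℕ} {D D' : ℕ → Set E} (hA : Good Z A N D)
    (hB : Good Z B N' D') (hAB : A ⊆ B) : A = B := by
  set m := (rem B N' D').ncard with hm
  set M := max N (max N' m) with hM
  have hNM : N ≤ M := le_max_left _ _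
  have hN'M : N' ≤ M := le_trans (le_max_left _ _) (le_max_right _ _)
  have hmM : m ≤ M := le_trans (le_max_right _ _) (le_max_right _ _)
  have key : ∀ j, M < j → D j = D' j := by
    intro j hj
    have hjN : N < j := by omega
    have hcard := hA.card j hjN
    have : ∃ x ∈ D j, x ∉ rem B N' D' := by
      by_contra hcon
      push Not at hcon
      have := Set.ncard_le_ncard (s := D j) (t := rem B N' D') hcon hB.fin
      omega
    obtain ⟨x, hx, hxr⟩ := this
    have hxB : x ∈ B := hAB (hA.sub j hjN hx)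
    have : ∃ i, N' < i ∧ x ∈ D' i := by
      by_contra hcon
      push Not at hcon
      exact hxr ⟨hxB, fun i hi => hcon i hi⟩
    obtain ⟨i, hi, hxi⟩ := this
    have heq := hB.toSys.eq_of_mem (C := D j) (fun y hy => hAB (hA.sub j hjN hy))
      (hA.circ j hjN) hx hi hxi
    have : j = i := by
      rw [← hcard, heq, hB.card i hi]
    rw [heq, this]
  have hA' := hA.mono hNM
  have hB' := hB.mono hN'M
  have hsub : rem A M D ⊆ rem B M D' := by
    rintro x ⟨hxA, hx⟩
    exact ⟨hAB hxA, fun j hj => by rw [← key j hj]; exact hx j hj⟩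
  have hfd := ZS_fin (Z := Z) hB'.fin
  have hZeq : ZS Z (rem A M D) = ZS Z (rem B M D') := by
    apply Submodule.eq_of_le_of_finrank_eq (ZS_mono hsub)
    have h1 := hA'.rank
    have h2 := hB'.rank
    unfold rk at h1 h2
    rw [h1, h2]
  apply Set.Subset.antisymm hAB
  intro x hx
  by_cases hxr : x ∈ rem B M D'
  · obtain ⟨z, hz, hzx⟩ := hB'.nobr x hx
    have hr := hB'.res_rem _ z hz (le_refl _)
    have hmem : res (rem B M D') z ∈ ZS Z (rem B M D') := by
      rw [mem_ZS]
      refine ⟨hr, fun y hy => ?_⟩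
      rw [res_apply] at hy
      split_ifs at hy with h1
      · exact h1
      · exact absurd rfl hy
    rw [← hZeq] at hmem
    have := (mem_ZS.mp hmem).2 x (by rw [res_apply, if_pos hxr]; exact hzx)
    exact this.1
  · have : ∃ j, M < j ∧ x ∈ D' j := by
      by_contra hcon
      push Not at hcon
      exact hxr ⟨hx, fun i hi => hcon i hi⟩
    obtain ⟨j, hj, hxj⟩ := this
    rw [← key j hj] at hxj
    exact hA'.sub j hj hxj

theorem Sys.ins {N : ℕ} {D : ℕ → Set E} (h : Sys Z A N D) (f : E) :
    ∃ M, N ≤ M ∧ Sys Z (insert f A) M D := by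
  by_cases hf : ∃ z ∈ ZS Z (insert f A), z f ≠ 0
  · obtain ⟨z0, hz0, hz0f⟩ := hf
    obtain ⟨M, hNM, hM⟩ := h.bound (T := (z0.support : Set E)) (Finset.finite_toSet _)
    refine ⟨M, hNM, fun j hj => (h.sub j (by omega)).trans (Set.subset_insert _ _),
      fun j hj => h.circ j (by omega), fun j hj => h.card j (by omega), fun j hj z hz => ?_⟩
    have hr0 : res (D j) z0 = 0 := by
      ext y
      rw [res_apply]
      split_ifs with hy
      · by_contra hne
        exact hM j hj y (by simpa using hne) hy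
      · rfl
    have h01 : ∀ c : ZMod 2, c ≠ 0 → c = 1 := by decide
    by_cases hzf : z f = 0
    · apply h.sep j (by omega)
      rw [mem_ZS] at *
      refine ⟨hz.1, fun y hy => ?_⟩
      rcases hz.2 y hy with rfl | h1
      · exact absurd hzf hy
      · exact h1
    · have h1 : z - z0 ∈ ZS Z A := by
        rw [mem_ZS] at *
        refine ⟨Z.sub_mem hz.1 hz0.1, fun y hy => ?_⟩
        by_cases hyf : y = f
        · exfalso
          apply hy
          rw [hyf, Finsupp.sub_apply, h01 _ hzf, h01 _ hz0f, sub_self]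
        · by_cases hzy : z y = 0
          · rw [Finsupp.sub_apply, hzy] at hy
            have : z0 y ≠ 0 := by
              intro h0; rw [h0] at hy; simp at hy
            rcases hz0.2 y this with h2 | h2
            · exact absurd h2 hyf
            · exact h2
          · rcases hz.2 y hzy with h2 | h2
            · exact absurd h2 hyf
            · exact h2
      have h2 := h.sep j (by omega) _ h1
      have h3 : res (D j) z = res (D j) (z - z0) := by
        ext y
        have h4 : res (D j) z0 y = 0 := by rw [hr0]; rfl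
        rw [res_apply] at h4 ⊢
        rw [res_apply, Finsupp.sub_apply]
        split_ifs with hy
        · rw [if_pos hy] at h4; rw [h4, sub_zero]
        · rfl
      rw [h3]; exact h2
  · push Not at hf
    refine ⟨N, le_refl _, fun j hj => (h.sub j (by omega)).trans (Set.subset_insert _ _),
      fun j hj => h.circ j (by omega), fun j hj => h.card j (by omega), fun j hj z hz => ?_⟩
    apply h.sep j hj
    have hzf := hf z hz
    rw [mem_ZS] at *
    refine ⟨hz.1, fun y hy => ?_⟩
    rcases hz.2 y hy with rfl | h1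
    · exact absurd hzf hy
    · exact h1

theorem Sys.union {N : ℕ} {D : ℕ → Set E} (h : Sys Z A N D) {T : Set E} (hT : T.Finite) :
    ∃ M, N ≤ M ∧ Sys Z (A ∪ T) M D := by
  induction T, hT using Set.Finite.induction_on with
  | empty => exact ⟨N, le_refl _, by simpa using h⟩
  | @insert a s _ _ ih =>
    obtain ⟨M, hNM, hM⟩ := ih
    obtain ⟨M', hMM', hM'⟩ := hM.ins a
    refine ⟨M', by omega, ?_⟩
    rw [Set.union_insert]
    exact hM'

/-- trimming a finite set to one of prescribed rank without coloops -/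
theorem trim (Z : Submodule (ZMod 2) (E →₀ ZMod 2)) (M : ℕ) :
    ∀ (n : ℕ) (R : Set E), R.Finite → R.ncard ≤ n → M ≤ rk Z R →
      ∃ F ⊆ R, rk Z F = M ∧ ∀ x ∈ F, ∃ z ∈ ZS Z F, z x ≠ 0 := by
  intro n
  induction n with
  | zero =>
    intro R hR hn hM
    have : R = ∅ := by
      rw [← Set.ncard_eq_zero hR]; omega
    subst this
    refine ⟨∅, le_refl _, ?_, fun x hx => absurd hx (Set.notMem_empty x)⟩
    have h0 : rk Z (∅ : Set E) = 0 := by
      unfold rk
      have : ZS Z (∅ : Set E) = ⊥ := by
        rw [eq_bot_iff]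
        intro z hz
        rw [mem_ZS] at hz
        rw [Submodule.mem_bot]
        ext x
        by_contra hne
        exact hz.2 x hne
      rw [this, finrank_bot]
    omega
  | succ n ih =>
    intro R hR hn hM
    by_cases hbr : ∃ x ∈ R, ∀ z ∈ ZS Z R, z x = 0
    · obtain ⟨x, hx, hz⟩ := hbr
      have h1 := ZS_bridge hz
      have h2 : rk Z (R \ {x}) = rk Z R := by unfold rk; rw [h1]
      have h3 : (R \ {x}).ncard + 1 = R.ncard := Set.ncard_sdiff_singleton_add_one hx hR
      obtain ⟨F, hF, h4, h5⟩ := ih (R \ {x}) (hR.subset Set.sdiff_subset) (by omega) (by omega)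
      exact ⟨F, hF.trans Set.sdiff_subset, h4, h5⟩
    · push Not at hbr
      by_cases heq : rk Z R = M
      · exact ⟨R, le_refl _, heq, hbr⟩
      · have hne : R.Nonempty := by
          by_contra hcon
          rw [Set.not_nonempty_iff_eq_empty] at hcon
          subst hcon
          have h0 : rk Z (∅ : Set E) = 0 := by
            unfold rk
            have : ZS Z (∅ : Set E) = ⊥ := by
              rw [eq_bot_iff]
              intro z hz
              rw [mem_ZS] at hz
              rw [Submodule.mem_bot]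
              ext x
              by_contra hne
              exact hz.2 x hne
            rw [this, finrank_bot]
          omega
        obtain ⟨x, hx⟩ := hne
        have h2 := rk_drop hR (hbr x hx)
        have h3 : (R \ {x}).ncard + 1 = R.ncard := Set.ncard_sdiff_singleton_add_one hx hR
        obtain ⟨F, hF, h4, h5⟩ := ih (R \ {x}) (hR.subset Set.sdiff_subset) (by omega) (by omega)
        exact ⟨F, hF.trans Set.sdiff_subset, h4, h5⟩

/-- (C2): the exchange step -/
theorem Good.exchange {N : ℕ} {D : ℕ → Set E} (h : Good Z A N D) {w : E →₀ ZMod 2} (hw : w ∈ Z)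
    {f : E} (hwf : w f ≠ 0) (hfA : f ∉ A) (e : E) :
    ∃ C M, C ⊆ (A ∪ {x | w x ≠ 0}) \ {e} ∧ Good Z C M D := by
  have hwfin : {x | w x ≠ 0}.Finite := by
    have : {x | w x ≠ 0} = (w.support : Set E) := by ext x; simp
    rw [this]; exact Finset.finite_toSet _
  obtain ⟨M1, hNM1, hM1⟩ := h.toSys.union hwfin
  obtain ⟨M, hM1M, hM⟩ := hM1.bound (T := insert e {x | w x ≠ 0}) (hwfin.insert e)
  have hG := h.mono (le_trans hNM1 hM1M)
  set R := rem A M D with hR
  have hRW : (R ∪ {x | w x ≠ 0}).Finite := hG.fin.union hwfin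
  have h1 : M + 1 ≤ rk Z (R ∪ {x | w x ≠ 0}) := by
    have hfd := ZS_fin (Z := Z) hRW
    have hlt : ZS Z R < ZS Z (R ∪ {x | w x ≠ 0}) := by
      refine lt_of_le_of_ne (ZS_mono Set.subset_union_left) (fun heq => ?_)
      have hwm : w ∈ ZS Z (R ∪ {x | w x ≠ 0}) :=
        mem_ZS.mpr ⟨hw, fun x hx => Or.inr hx⟩
      rw [← heq] at hwm
      exact hfA ((mem_ZS.mp hwm).2 f hwf).1
    have := Submodule.finrank_lt_finrank_of_lt hlt
    have hr := hG.rank
    rw [← hR] at hr
    unfold rk at *
    omega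
  have h2 : M ≤ rk Z ((R ∪ {x | w x ≠ 0}) \ {e}) := by
    by_cases hbr : ∃ z ∈ ZS Z (R ∪ {x | w x ≠ 0}), z e ≠ 0
    · have := rk_drop hRW hbr
      omega
    · push Not at hbr
      have h3 := ZS_bridge hbr
      unfold rk at *
      rw [h3]; omega
  obtain ⟨F, hF, hFM, hFb⟩ := trim Z M _ _ (hRW.subset Set.sdiff_subset) (le_refl _) h2
  have hsubC : F ∪ {x | ∃ j, M < j ∧ x ∈ D j} ⊆ A ∪ {x | w x ≠ 0} := by
    rintro x (hx | ⟨j, hj, hx⟩)
    · rcases (hF hx).1 with h3 | h3
      · exact Or.inl h3.1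
      · exact Or.inr h3
    · exact Or.inl (hG.sub j hj hx)
  have hremC : rem (F ∪ {x | ∃ j, M < j ∧ x ∈ D j}) M D = F := by
    ext x
    constructor
    · rintro ⟨h3 | ⟨j, hj, hx⟩, h4⟩
      · exact h3
      · exact absurd hx (h4 j hj)
    · intro hx
      refine ⟨Or.inl hx, fun j hj hxj => ?_⟩
      rcases (hF hx).1 with h3 | h3
      · exact h3.2 j hj hxj
      · exact hM j hj x (Or.inr h3) hxj
  refine ⟨F ∪ {x | ∃ j, M < j ∧ x ∈ D j}, M, ?_, ⟨⟨?_, ?_, ?_, ?_⟩, ?_, ?_, ?_⟩⟩
  · intro x hx
    refine ⟨hsubC hx, ?_⟩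
    rintro rfl
    rcases hx with hx | ⟨j, hj, hx⟩
    · exact (hF hx).2 rfl
    · exact hM j hj x (Or.inl rfl) hx
  · intro j hj x hx
    exact Or.inr ⟨j, hj, hx⟩
  · intro j hj
    exact hG.circ j hj
  · intro j hj
    exact hG.card j hj
  · intro j hj z hz
    exact hM1.sep j (by omega) z (ZS_mono hsubC hz)
  · rw [hremC]; exact (hRW.subset Set.sdiff_subset).subset hF
  · rw [hremC]; exact hFM
  · rintro x (hx | ⟨j, hj, hx⟩)
    · obtain ⟨z, hz, hzx⟩ := hFb x hx
      exact ⟨z, ZS_mono Set.subset_union_left hz, hzx⟩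
    · obtain ⟨z, hz, hzD⟩ := (hG.circ j hj).1
      refine ⟨z, mem_ZS.mpr ⟨hz, fun y hy => Or.inr ⟨j, hj, (hzD y).mp hy⟩⟩, (hzD x).mpr hx⟩

/-- a set is nice if it is good for some parameters -/
def Nice (Z : Submodule (ZMod 2) (E →₀ ZMod 2)) (A : Set E) : Prop := ∃ N D, Good Z A N D

end Abstract

section Transport

variable {E : Type u}

theorem Good.congr {Z : Submodule (ZMod 2) (E →₀ ZMod 2)} {A : Set E} {N : ℕ} {D D' : ℕ → Set E}
    (h : Good Z A N D) (hD : ∀ j, N < j → D' j = D j) : Good Z A N D' := by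
  have hrem : rem A N D' = rem A N D := by
    ext x
    constructor
    · rintro ⟨h1, h2⟩
      exact ⟨h1, fun j hj => by rw [← hD j hj]; exact h2 j hj⟩
    · rintro ⟨h1, h2⟩
      exact ⟨h1, fun j hj => by rw [hD j hj]; exact h2 j hj⟩
  refine ⟨⟨?_, ?_, ?_, ?_⟩, ?_, ?_, h.nobr⟩
  · intro j hj; rw [hD j hj]; exact h.sub j hj
  · intro j hj; rw [hD j hj]; exact h.circ j hj
  · intro j hj; rw [hD j hj]; exact h.card j hj
  · intro j hj; rw [hD j hj]; exact h.sep j hj
  · rw [hrem]; exact h.fin
  · rw [hrem]; exact h.rank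

/-- pulling back along an injection of edge sets -/
theorem good_image {E' : Type u} (ι : E' → E) (hι : Function.Injective ι)
    {Z : Submodule (ZMod 2) (E →₀ ZMod 2)} {Z' : Submodule (ZMod 2) (E' →₀ ZMod 2)}
    (hZ : ∀ z', z' ∈ Z' ↔ Finsupp.mapDomain ι z' ∈ Z) (A' : Set E') (N : ℕ) (D' : ℕ → Set E') :
    Good Z' A' N D' ↔ Good Z (ι '' A') N (fun j => ι '' D' j) := by
  have happ : ∀ (z' : E' →₀ ZMod 2) (x : E'), Finsupp.mapDomain ι z' (ι x) = z' x :=
    fun z' x => Finsupp.mapDomain_apply hι z' x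
  have hout : ∀ (z' : E' →₀ ZMod 2) (y : E), Finsupp.mapDomain ι z' y ≠ 0 →
      ∃ x, ι x = y ∧ z' x ≠ 0 := by
    intro z' y hy
    by_cases hr : y ∈ Set.range ι
    · obtain ⟨x, rfl⟩ := hr
      exact ⟨x, rfl, by rwa [happ] at hy⟩
    · exact absurd (Finsupp.mapDomain_of_notMem_range z' y hr) hy
  have hlift : ∀ (z : E →₀ ZMod 2), (∀ y, z y ≠ 0 → y ∈ Set.range ι) →
      ∃ z' : E' →₀ ZMod 2, Finsupp.mapDomain ι z' = z := by
    intro z hz
    refine ⟨Finsupp.comapDomain ι z hι.injOn, Finsupp.mapDomain_comapDomain ι hι z ?_⟩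
    intro y hy
    exact hz y (by simpa using hy)
  have hZS1 : ∀ (B : Set E') (z' : E' →₀ ZMod 2),
      Finsupp.mapDomain ι z' ∈ ZS Z (ι '' B) ↔ z' ∈ ZS Z' B := by
    intro B z'
    rw [mem_ZS, mem_ZS, hZ]
    refine and_congr_right fun _ => ?_
    constructor
    · intro h x hx
      obtain ⟨y, hy, hyx⟩ := h (ι x) (by rwa [happ])
      rwa [← hι hyx]
    · intro h y hy
      obtain ⟨x, rfl, hx⟩ := hout z' y hy
      exact ⟨x, h x hx, rfl⟩
  have hZS2 : ∀ (B : Set E') (z : E →₀ ZMod 2), z ∈ ZS Z (ι '' B) →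
      ∃ z' ∈ ZS Z' B, Finsupp.mapDomain ι z' = z := by
    intro B z hz
    obtain ⟨z', rfl⟩ := hlift z (fun y hy => by
      obtain ⟨x, _, rfl⟩ := (mem_ZS.mp hz).2 y hy
      exact ⟨x, rfl⟩)
    exact ⟨z', (hZS1 B z').mp hz, rfl⟩
  have hrk : ∀ B : Set E', rk Z (ι '' B) = rk Z' B := by
    intro B
    have : ZS Z (ι '' B) = (ZS Z' B).map (Finsupp.lmapDomain (ZMod 2) (ZMod 2) ι) := by
      ext z
      rw [Submodule.mem_map]
      constructor
      · intro hz
        obtain ⟨z', hz', h⟩ := hZS2 B z hz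
        exact ⟨z', hz', h⟩
      · rintro ⟨z', hz', rfl⟩
        exact (hZS1 B z').mpr hz'
    unfold rk
    rw [this]
    exact (LinearEquiv.finrank_eq (Submodule.equivMapOfInjective _
      (Finsupp.mapDomain_injective hι) (ZS Z' B))).symm
  have hres : ∀ (B : Set E') (z' : E' →₀ ZMod 2),
      res (ι '' B) (Finsupp.mapDomain ι z') = Finsupp.mapDomain ι (res B z') := by
    intro B z'
    ext y
    rw [res_apply]
    by_cases hr : y ∈ Set.range ι
    · obtain ⟨x, rfl⟩ := hr
      rw [happ, happ, res_apply]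
      by_cases hx : x ∈ B
      · rw [if_pos hx, if_pos ⟨x, hx, rfl⟩]
      · rw [if_neg hx, if_neg]
        rintro ⟨x', hx', h⟩
        rw [hι h] at hx'
        exact hx hx'
    · rw [Finsupp.mapDomain_of_notMem_range _ y hr, Finsupp.mapDomain_of_notMem_range _ y hr]
      simp
  have hcirc : ∀ B : Set E', IsCirc Z (ι '' B) ↔ IsCirc Z' B := by
    intro B
    constructor
    · rintro ⟨⟨z, hz, hzB⟩, hmin⟩
      refine ⟨?_, ?_⟩
      · obtain ⟨z', hz', rfl⟩ := hZS2 B z (mem_ZS.mpr ⟨hz, fun x hx => (hzB x).mp hx⟩)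
        refine ⟨z', (mem_ZS.mp hz').1, fun x => ?_⟩
        rw [← happ z' x, hzB]
        constructor
        · rintro ⟨x', hx', h⟩
          rwa [← hι h]
        · intro hx; exact ⟨x, hx, rfl⟩
      · intro z' hz' hne hsub x hx
        have := hmin (Finsupp.mapDomain ι z') ((hZ z').mp hz') (by
          intro h0
          apply hne
          apply Finsupp.mapDomain_injective hι
          rw [h0, Finsupp.mapDomain_zero]) (by
          intro y hy
          obtain ⟨x, rfl, hx⟩ := hout z' y hy
          exact ⟨x, hsub x hx, rfl⟩) (ι x) ⟨x, hx, rfl⟩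
        rwa [happ] at this
    · rintro ⟨⟨z', hz', hzB⟩, hmin⟩
      refine ⟨⟨Finsupp.mapDomain ι z', (hZ z').mp hz', fun y => ?_⟩, ?_⟩
      · constructor
        · intro hy
          obtain ⟨x, rfl, hx⟩ := hout z' y hy
          exact ⟨x, (hzB x).mp hx, rfl⟩
        · rintro ⟨x, hx, rfl⟩
          rw [happ]; exact (hzB x).mpr hx
      · rintro z hz hne hsub y ⟨x, hx, rfl⟩
        obtain ⟨w', hw', rfl⟩ := hZS2 B z (mem_ZS.mpr ⟨hz, hsub⟩)
        rw [happ]
        refine hmin w' (mem_ZS.mp hw').1 ?_ (mem_ZS.mp hw').2 x hx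
        rintro rfl
        exact hne Finsupp.mapDomain_zero
  have hrem : rem (ι '' A') N (fun j => ι '' D' j) = ι '' rem A' N D' := by
    ext y
    constructor
    · rintro ⟨⟨x, hx, rfl⟩, h2⟩
      exact ⟨x, ⟨hx, fun j hj hxj => h2 j hj ⟨x, hxj, rfl⟩⟩, rfl⟩
    · rintro ⟨x, ⟨hx, h2⟩, rfl⟩
      refine ⟨⟨x, hx, rfl⟩, fun j hj hxj => ?_⟩
      obtain ⟨x', hx', h⟩ := hxj
      rw [hι h] at hx'
      exact h2 j hj hx'
  constructor
  · intro h
    refine ⟨⟨?_, ?_, ?_, ?_⟩, ?_, ?_, ?_⟩
    · intro j hj; exact Set.image_mono (h.sub j hj)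
    · intro j hj; exact (hcirc _).mpr (h.circ j hj)
    · intro j hj; rw [Set.ncard_image_of_injective _ hι]; exact h.card j hj
    · intro j hj z hz
      obtain ⟨z', hz', rfl⟩ := hZS2 A' z hz
      rw [hres, ← hZ]
      exact h.sep j hj z' hz'
    · rw [hrem]; exact h.fin.image _
    · rw [hrem, hrk]; exact h.rank
    · rintro y ⟨x, hx, rfl⟩
      obtain ⟨z', hz', hne⟩ := h.nobr x hx
      exact ⟨Finsupp.mapDomain ι z', (hZS1 _ _).mpr hz', by rwa [happ]⟩
  · intro h
    refine ⟨⟨?_, ?_, ?_, ?_⟩, ?_, ?_, ?_⟩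
    · intro j hj x hx
      obtain ⟨x', hx', h'⟩ := h.sub j hj ⟨x, hx, rfl⟩
      rwa [← hι h']
    · intro j hj; exact (hcirc _).mp (h.circ j hj)
    · intro j hj
      have := h.card j hj
      rwa [Set.ncard_image_of_injective _ hι] at this
    · intro j hj z' hz'
      have := h.sep j hj _ ((hZS1 _ _).mpr hz')
      rwa [hres, ← hZ] at this
    · have := h.fin
      rw [hrem] at this
      exact Set.Finite.of_finite_image this hι.injOn
    · have := h.rank
      rwa [hrem, hrk] at this
    · intro x hx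
      obtain ⟨z, hz, hne⟩ := h.nobr (ι x) ⟨x, hx, rfl⟩
      obtain ⟨z', hz', rfl⟩ := hZS2 _ z hz
      exact ⟨z', hz', by rwa [happ] at hne⟩

theorem nice_image {E' : Type u} (ι : E' → E) (hι : Function.Injective ι)
    {Z : Submodule (ZMod 2) (E →₀ ZMod 2)} {Z' : Submodule (ZMod 2) (E' →₀ ZMod 2)}
    (hZ : ∀ z', z' ∈ Z' ↔ Finsupp.mapDomain ι z' ∈ Z) :
    Nice Z' Set.univ ↔ Nice Z (Set.range ι) := by
  rw [← Set.image_univ]
  constructor
  · rintro ⟨N, D', h⟩
    exact ⟨N, _, (good_image ι hι hZ Set.univ N D').mp h⟩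
  · rintro ⟨N, D, h⟩
    refine ⟨N, fun j => ι ⁻¹' D j, (good_image ι hι hZ Set.univ N _).mpr ?_⟩
    refine h.congr (fun j hj => ?_)
    rw [Set.image_preimage_eq_inter_range, ← Set.image_univ]
    exact Set.inter_eq_left.mpr (h.sub j hj)

/-- the effect of a series extension of `e` on chains -/
noncomputable def ser (e : E) : (E →₀ ZMod 2) →ₗ[ZMod 2] (Option E →₀ ZMod 2) :=
  Finsupp.lmapDomain (ZMod 2) (ZMod 2) some + (Finsupp.lsingle none) ∘ₗ (Finsupp.lapply e)

theorem ser_some (e : E) (z : E →₀ ZMod 2) (x : E) : ser e z (some x) = z x := by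
  unfold ser
  rw [LinearMap.add_apply, Finsupp.add_apply, Finsupp.lmapDomain_apply,
    Finsupp.mapDomain_apply (Option.some_injective E)]
  simp

theorem ser_none (e : E) (z : E →₀ ZMod 2) : ser e z none = z e := by
  unfold ser
  rw [LinearMap.add_apply, Finsupp.add_apply, Finsupp.lmapDomain_apply,
    Finsupp.mapDomain_of_notMem_range]
  · simp
  · simp

theorem ser_inj (e : E) : Function.Injective (ser e) := by
  intro z w h
  ext x
  rw [← ser_some e z x, h, ser_some]

theorem good_ser (e : E) {Z : Submodule (ZMod 2) (E →₀ ZMod 2)}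
    {Z' : Submodule (ZMod 2) (Option E →₀ ZMod 2)} (hZ : Z' = Z.map (ser e)) (M : ℕ)
    (D : ℕ → Set E) (hD : ∀ j, M < j → e ∉ D j) :
    Good Z Set.univ M D ↔ Good Z' Set.univ M (fun j => some '' D j) := by
  have hinj := Option.some_injective E
  have hmem : ∀ z, ser e z ∈ Z' ↔ z ∈ Z := by
    intro z
    rw [hZ, Submodule.mem_map]
    constructor
    · rintro ⟨w, hw, h⟩
      rwa [← ser_inj e h]
    · intro hz; exact ⟨z, hz, rfl⟩
  have hlift : ∀ z' ∈ Z', ∃ z ∈ Z, ser e z = z' := by
    intro z' hz'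
    rw [hZ, Submodule.mem_map] at hz'
    exact hz'
  have hres : ∀ (B : Set E) (z : E →₀ ZMod 2), e ∉ B →
      res (some '' B) (ser e z) = ser e (res B z) := by
    intro B z heB
    ext y
    rw [res_apply]
    cases y with
    | none => rw [ser_none, ser_none, res_apply, if_neg heB, if_neg (by simp)]
    | some x =>
      rw [ser_some, ser_some, res_apply]
      by_cases hx : x ∈ B
      · rw [if_pos hx, if_pos ⟨x, hx, rfl⟩]
      · rw [if_neg hx, if_neg]
        rintro ⟨x', hx', h⟩
        rw [hinj h] at hx'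
        exact hx hx'
  have hcirc : ∀ B : Set E, e ∉ B → (IsCirc Z' (some '' B) ↔ IsCirc Z B) := by
    intro B heB
    constructor
    · rintro ⟨⟨z', hz', hzB⟩, hmin⟩
      refine ⟨?_, ?_⟩
      · obtain ⟨z, hz, rfl⟩ := hlift z' hz'
        refine ⟨z, hz, fun x => ?_⟩
        rw [← ser_some e z x, hzB]
        constructor
        · rintro ⟨x', hx', h⟩
          rwa [← hinj h]
        · intro hx; exact ⟨x, hx, rfl⟩
      · intro z hz hne hsub x hx
        have := hmin (ser e z) ((hmem z).mpr hz) (by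
          intro h0
          apply hne
          apply ser_inj e
          rw [h0, map_zero]) (by
          intro y hy
          cases y with
          | none => rw [ser_none] at hy; exact absurd (hsub e hy) heB
          | some y => rw [ser_some] at hy; exact ⟨y, hsub y hy, rfl⟩) (some x) ⟨x, hx, rfl⟩
        rwa [ser_some] at this
    · rintro ⟨⟨z, hz, hzB⟩, hmin⟩
      refine ⟨⟨ser e z, (hmem z).mpr hz, fun y => ?_⟩, ?_⟩
      · cases y with
        | none =>
          rw [ser_none, hzB]
          simp [heB]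
        | some y =>
          rw [ser_some, hzB]
          constructor
          · intro hy; exact ⟨y, hy, rfl⟩
          · rintro ⟨x', hx', h⟩
            rwa [← hinj h]
      · rintro z' hz' hne hsub y ⟨x, hx, rfl⟩
        obtain ⟨w, hw, rfl⟩ := hlift z' hz'
        rw [ser_some]
        refine hmin w hw ?_ ?_ x hx
        · rintro rfl
          exact hne (map_zero _)
        · intro y hy
          obtain ⟨y', hy', h⟩ := hsub (some y) (by rwa [ser_some])
          rwa [← hinj h]
  have hrem : rem Set.univ M (fun j => some '' D j) = insert none (some '' rem Set.univ M D) := by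
    ext y
    cases y with
    | none => simp [rem]
    | some x =>
      simp only [rem, Set.mem_ofPred_eq, Set.mem_univ, true_and, Set.mem_insert_iff,
        reduceCtorEq, false_or, Set.mem_image, Option.some.injEq, exists_eq_right]
  have heR : e ∈ rem Set.univ M D := ⟨trivial, hD⟩
  have hrk : rk Z' (insert none (some '' rem Set.univ M D)) = rk Z (rem Set.univ M D) := by
    have : ZS Z' (insert none (some '' rem Set.univ M D)) =
        (ZS Z (rem Set.univ M D)).map (ser e) := by
      ext z'
      rw [Submodule.mem_map]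
      constructor
      · intro hz'
        rw [mem_ZS] at hz'
        obtain ⟨z, hz, rfl⟩ := hlift z' hz'.1
        refine ⟨z, mem_ZS.mpr ⟨hz, fun x hx => ?_⟩, rfl⟩
        rcases hz'.2 (some x) (by rwa [ser_some]) with h1 | ⟨x', hx', h⟩
        · exact absurd h1 (by simp)
        · rwa [← hinj h]
      · rintro ⟨z, hz, rfl⟩
        rw [mem_ZS] at hz ⊢
        refine ⟨(hmem z).mpr hz.1, fun y hy => ?_⟩
        cases y with
        | none => exact Or.inl rfl
        | some y =>
          rw [ser_some] at hy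
          exact Or.inr ⟨y, hz.2 y hy, rfl⟩
    unfold rk
    rw [this]
    exact (LinearEquiv.finrank_eq (Submodule.equivMapOfInjective _ (ser_inj e) _)).symm
  have hZu : ∀ z, z ∈ ZS Z Set.univ ↔ z ∈ Z := fun z => by
    rw [mem_ZS]; exact ⟨fun h => h.1, fun h => ⟨h, fun _ _ => trivial⟩⟩
  have hZu' : ∀ z, z ∈ ZS Z' Set.univ ↔ z ∈ Z' := fun z => by
    rw [mem_ZS]; exact ⟨fun h => h.1, fun h => ⟨h, fun _ _ => trivial⟩⟩
  constructor
  · intro h
    refine ⟨⟨?_, ?_, ?_, ?_⟩, ?_, ?_, ?_⟩
    · intro j hj; exact Set.subset_univ _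
    · intro j hj; exact (hcirc _ (hD j hj)).mpr (h.circ j hj)
    · intro j hj; rw [Set.ncard_image_of_injective _ hinj]; exact h.card j hj
    · intro j hj z' hz'
      obtain ⟨z, hz, rfl⟩ := hlift z' ((hZu' z').mp hz')
      rw [hres _ _ (hD j hj), hmem]
      exact h.sep j hj z ((hZu z).mpr hz)
    · rw [hrem]; exact (h.fin.image _).insert _
    · rw [hrem, hrk]; exact h.rank
    · intro y _
      cases y with
      | none =>
        obtain ⟨z, hz, hne⟩ := h.nobr e trivial
        exact ⟨ser e z, (hZu' _).mpr ((hmem z).mpr ((hZu z).mp hz)), by rwa [ser_none]⟩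
      | some y =>
        obtain ⟨z, hz, hne⟩ := h.nobr y trivial
        exact ⟨ser e z, (hZu' _).mpr ((hmem z).mpr ((hZu z).mp hz)), by rwa [ser_some]⟩
  · intro h
    refine ⟨⟨?_, ?_, ?_, ?_⟩, ?_, ?_, ?_⟩
    · intro j hj; exact Set.subset_univ _
    · intro j hj; exact (hcirc _ (hD j hj)).mp (h.circ j hj)
    · intro j hj
      have := h.card j hj
      rwa [Set.ncard_image_of_injective _ hinj] at this
    · intro j hj z hz
      have := h.sep j hj (ser e z) ((hZu' _).mpr ((hmem z).mpr ((hZu z).mp hz)))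
      rwa [hres _ _ (hD j hj), hmem] at this
    · have := h.fin
      rw [hrem] at this
      exact Set.Finite.of_finite_image (this.subset (Set.subset_insert _ _)) hinj.injOn
    · have := h.rank
      rwa [hrem, hrk] at this
    · intro x _
      obtain ⟨z', hz', hne⟩ := h.nobr (some x) trivial
      obtain ⟨z, hz, rfl⟩ := hlift z' ((hZu' z').mp hz')
      exact ⟨z, (hZu z).mpr hz, by rwa [ser_some] at hne⟩

theorem nice_ser (e : E) {Z : Submodule (ZMod 2) (E →₀ ZMod 2)}
    {Z' : Submodule (ZMod 2) (Option E →₀ ZMod 2)} (hZ : Z' = Z.map (ser e)) :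
    Nice Z Set.univ ↔ Nice Z' Set.univ := by
  constructor
  · rintro ⟨N, D, h⟩
    obtain ⟨M, hNM, hM⟩ := h.toSys.bound (T := {e}) (Set.finite_singleton e)
    exact ⟨M, _, (good_ser e hZ M D (fun j hj => hM j hj e rfl)).mp (h.mono hNM)⟩
  · rintro ⟨N, D', h⟩
    obtain ⟨M, hNM, hM⟩ := h.toSys.bound (T := {none, some e}) (by simp)
    refine ⟨M, fun j => some ⁻¹' D' j, (good_ser e hZ M _ (fun j hj =>
      hM j hj (some e) (by simp))).mpr ?_⟩
    refine (h.mono hNM).congr (fun j hj => ?_)
    ext y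
    cases y with
    | none => simpa using hM j hj none (by simp)
    | some y => simp

end Transport

section Graphs

/-- sum of the two ends modulo two -/
noncomputable def endsSum {V : Type u} (s : Sym2 V) : V →₀ ZMod 2 :=
  Sym2.lift ⟨fun a b => Finsupp.single a 1 + Finsupp.single b 1, fun _ _ => add_comm _ _⟩ s

theorem endsSum_mk {V : Type u} (a b : V) :
    endsSum s(a, b) = Finsupp.single a 1 + Finsupp.single b 1 := rfl

theorem endsSum_map {V W : Type u} (f : V → W) (s : Sym2 V) :
    endsSum (s.map f) = Finsupp.mapDomain f (endsSum s) := by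
  induction s using Sym2.ind with
  | _ a b =>
    rw [Sym2.map_mk, endsSum_mk, endsSum_mk, Finsupp.mapDomain_add, Finsupp.mapDomain_single,
      Finsupp.mapDomain_single]

/-- boundary map modulo two -/
noncomputable def bd {V E : Type u} (g : E → Sym2 V) : (E →₀ ZMod 2) →ₗ[ZMod 2] (V →₀ ZMod 2) :=
  Finsupp.linearCombination (ZMod 2) (fun e => endsSum (g e))

theorem bd_single {V E : Type u} (g : E → Sym2 V) (e : E) :
    bd g (Finsupp.single e 1) = endsSum (g e) := by
  unfold bd
  rw [Finsupp.linearCombination_single, one_smul]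

/-- cycle space modulo two -/
noncomputable def cyc {V E : Type u} (g : E → Sym2 V) : Submodule (ZMod 2) (E →₀ ZMod 2) :=
  LinearMap.ker (bd g)

theorem mem_cyc {V E : Type u} {g : E → Sym2 V} {z : E →₀ ZMod 2} : z ∈ cyc g ↔ bd g z = 0 :=
  Iff.rfl

theorem cyc_embed {V E V' E' : Type u} {g : E → Sym2 V} {g' : E' → Sym2 V'} (f : V → V')
    (hf : Function.Injective f) (k : E → E')
    (h : ∀ x, g' (k x) = (g x).map f) (z : E →₀ ZMod 2) :
    z ∈ cyc g ↔ Finsupp.mapDomain k z ∈ cyc g' := by
  have hcomm : (bd g') ∘ₗ (Finsupp.lmapDomain (ZMod 2) (ZMod 2) k) =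
      (Finsupp.lmapDomain (ZMod 2) (ZMod 2) f) ∘ₗ (bd g) := by
    apply Finsupp.lhom_ext'
    intro x
    apply LinearMap.ext_ring
    simp only [LinearMap.comp_apply, Finsupp.lsingle_apply, Finsupp.lmapDomain_apply,
      Finsupp.mapDomain_single, bd_single]
    rw [h, endsSum_map]
  have h1 : bd g' (Finsupp.mapDomain k z) = Finsupp.mapDomain f (bd g z) :=
    LinearMap.congr_fun hcomm z
  rw [mem_cyc, mem_cyc, h1]
  constructor
  · intro h0; rw [h0, Finsupp.mapDomain_zero]
  · intro h0
    apply Finsupp.mapDomain_injective hf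
    rw [h0, Finsupp.mapDomain_zero]

/-- the family, on the level of end maps -/
def FamE {V E : Type u} (g : E → Sym2 V) : Prop :=
  (∀ v : V, ∃ x : E, v ∈ g x) ∧ Nice (cyc g) Set.univ

/-- the family -/
def Fam (G : MGraph.{u}) : Prop := FamE G.ends

theorem Fam.iso {G H : MGraph.{u}} (φ : Iso G H) (h : Fam G) : Fam H := by
  refine ⟨fun v => ?_, ?_⟩
  · obtain ⟨x, hx⟩ := h.1 (φ.onV.symm v)
    refine ⟨φ.onE x, ?_⟩
    rw [φ.ends_eq, Sym2.mem_map]
    exact ⟨_, hx, by simp⟩
  · have := (nice_image φ.onE φ.onE.injective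
      (cyc_embed φ.onV φ.onV.injective φ.onE φ.ends_eq)).mp h.2
    rwa [φ.onE.surjective.range_eq] at this

def Iso.symm {G H : MGraph.{u}} (φ : Iso G H) : Iso H G where
  onV := φ.onV.symm
  onE := φ.onE.symm
  ends_eq := by
    intro x
    have := φ.ends_eq (φ.onE.symm x)
    rw [Equiv.apply_symm_apply] at this
    rw [this, Sym2.map_map]
    simp

theorem sub_nice {Γ : MGraph.{u}} (S : Sub Γ) :
    Nice (cyc S.toGraph.ends) Set.univ ↔ Nice (cyc Γ.ends) S.edges := by
  have := nice_image (E := Γ.E) (E' := S.toGraph.E) (fun x => x.1) Subtype.val_injective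
    (Z := cyc Γ.ends) (Z' := cyc S.toGraph.ends)
    (cyc_embed (g := S.toGraph.ends) (g' := Γ.ends) (fun v => v.1) Subtype.val_injective
      (fun x => x.1)
      (fun x => (Sym2.attachWith_map_subtypeVal (S.closed x.1 x.2)).symm))
  rw [this]
  have hr : (Set.range fun x : S.toGraph.E => x.1) = S.edges := Subtype.range_val
  rw [hr]

theorem copies_iff {Γ : MGraph.{u}} (A : Set Γ.E) : A ∈ copies Fam Γ ↔ Nice (cyc Γ.ends) A := by
  constructor
  · rintro ⟨S, rfl, G, hG, ⟨φ⟩⟩
    exact (sub_nice S).mp (hG.iso φ.symm).2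
  · intro h
    let S : Sub Γ := ⟨{v | ∃ e ∈ A, v ∈ Γ.ends e}, A, fun e he v hv => ⟨e, he, hv⟩⟩
    refine ⟨S, rfl, S.toGraph, ⟨?_, (sub_nice S).mpr h⟩,
      ⟨⟨Equiv.refl _, Equiv.refl _, fun x => by simp⟩⟩⟩
    rintro ⟨v, e, he, hv⟩
    refine ⟨⟨e, he⟩, ?_⟩
    have h1 : v ∈ ((S.toGraph.ends ⟨e, he⟩).map (fun v => v.1)) := by
      have : (S.toGraph.ends ⟨e, he⟩).map (fun v => v.1) = Γ.ends e :=
        Sym2.attachWith_map_subtypeVal (S.closed e he)
      rw [this]; exact hv
    rw [Sym2.mem_map] at h1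
    obtain ⟨w, hw, hwv⟩ := h1
    have : w = ⟨v, e, he, hv⟩ := Subtype.ext hwv
    rwa [← this]

theorem circuitAxioms_fam (Γ : MGraph.{u}) : CircuitAxioms (copies Fam Γ) := by
  refine ⟨?_, ?_⟩
  · intro C hC C' hC' hss
    rw [copies_iff] at hC hC'
    obtain ⟨N, D, h⟩ := hC
    obtain ⟨N', D', h'⟩ := hC'
    exact hss.ne (h.eq_of_subset h' hss.subset)
  · intro C' hC' C'' hC'' hne e _
    rw [copies_iff] at hC' hC''
    obtain ⟨N, D, h⟩ := hC'
    obtain ⟨N', D', h'⟩ := hC''
    have hnsub : ¬ C'' ⊆ C' := fun hs => hne (h'.eq_of_subset h hs).symm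
    rw [Set.not_subset] at hnsub
    obtain ⟨f, hf, hfC⟩ := hnsub
    obtain ⟨w, hw, hwf⟩ := h'.nobr f hf
    rw [mem_ZS] at hw
    obtain ⟨C, M, hsub, hG⟩ := h.exchange hw.1 hwf hfC e
    refine ⟨C, (copies_iff C).mpr ⟨M, D, hG⟩, hsub.trans ?_⟩
    apply Set.sdiff_subset_sdiff_left
    exact Set.union_subset_union_right _ (fun x hx => hw.2 x hx)

/-- the ends map of a subdivision -/
noncomputable def subE {V E : Type u} (g : E → Sym2 V) (e : E) (a b : V) :
    Option E → Sym2 (Option V) :=
  fun x => match x with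
    | none => s(none, some b)
    | some y => if y = e then s(some a, none) else (g y).map some

theorem subE_none {V E : Type u} (g : E → Sym2 V) (e : E) (a b : V) :
    subE g e a b none = s(none, some b) := rfl

theorem subE_self {V E : Type u} (g : E → Sym2 V) (e : E) (a b : V) :
    subE g e a b (some e) = s(some a, none) := by
  unfold subE
  simp

theorem subE_ne {V E : Type u} (g : E → Sym2 V) (e : E) (a b : V) {y : E} (hy : y ≠ e) :
    subE g e a b (some y) = (g y).map some := by
  unfold subE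
  simp [hy]

theorem bd_ser {V E : Type u} (g : E → Sym2 V) (e : E) (a b : V) (h : g e = s(a, b))
    (z : E →₀ ZMod 2) : bd (subE g e a b) (ser e z) = Finsupp.mapDomain some (bd g z) := by
  have hcomm : (bd (subE g e a b)) ∘ₗ (ser e) =
      (Finsupp.lmapDomain (ZMod 2) (ZMod 2) some) ∘ₗ (bd g) := by
    apply Finsupp.lhom_ext'
    intro x
    apply LinearMap.ext_ring
    simp only [LinearMap.comp_apply, Finsupp.lsingle_apply, Finsupp.lmapDomain_apply, bd_single]
    by_cases hx : x = e
    · subst hx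
      have : ser x (Finsupp.single x 1) = Finsupp.single (some x) 1 + Finsupp.single none 1 := by
        unfold ser; simp
      rw [this, map_add, bd_single, bd_single, subE_none, subE_self, h, endsSum_mk, endsSum_mk,
        endsSum_mk, Finsupp.mapDomain_add, Finsupp.mapDomain_single, Finsupp.mapDomain_single]
      have h2 : (Finsupp.single none 1 : Option V →₀ ZMod 2) + Finsupp.single none 1 = 0 := by
        rw [← Finsupp.single_add]
        have : (1 : ZMod 2) + 1 = 0 := by decide
        rw [this, Finsupp.single_zero]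
      have h3 : ∀ p q r : Option V →₀ ZMod 2, q + q = 0 → (p + q) + (q + r) = p + r := by
        intro p q r hq
        rw [add_assoc, ← add_assoc q q r, hq, zero_add]
      exact h3 _ _ _ h2
    · have : ser e (Finsupp.single x 1) = Finsupp.single (some x) 1 := by
        unfold ser; simp [hx]
      rw [this, bd_single, subE_ne g e a b hx, endsSum_map]
  exact LinearMap.congr_fun hcomm z

theorem cyc_subE {V E : Type u} (g : E → Sym2 V) (e : E) (a b : V) (h : g e = s(a, b)) :
    cyc (subE g e a b) = (cyc g).map (ser e) := by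
  ext z'
  rw [Submodule.mem_map]
  constructor
  · intro hz'
    let z : E →₀ ZMod 2 := Finsupp.some z'
    let c : ZMod 2 := z' none - z e
    have hz : z' = ser e z + Finsupp.single none c := by
      ext y
      cases y with
      | none =>
        rw [Finsupp.add_apply, ser_none]
        simp [c]
      | some y =>
        rw [Finsupp.add_apply, ser_some]
        simp [z]
    have h1 : bd (subE g e a b) z' = Finsupp.mapDomain some (bd g z) +
        c • (Finsupp.single none 1 + Finsupp.single (some b) 1) := by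
      rw [hz, map_add, bd_ser g e a b h]
      congr 1
      have : (Finsupp.single none c : Option E →₀ ZMod 2) = c • Finsupp.single none 1 := by simp
      rw [this, map_smul, bd_single, subE_none, endsSum_mk]
    have h2 : bd (subE g e a b) z' = 0 := hz'
    have h3 : c = 0 := by
      have h4 : (bd (subE g e a b) z') none = 0 := by rw [h2]; rfl
      rw [h1, Finsupp.add_apply, Finsupp.mapDomain_of_notMem_range _ _ (by simp)] at h4
      simpa using h4
    rw [h3, Finsupp.single_zero, add_zero] at hz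
    refine ⟨z, ?_, hz.symm⟩
    rw [mem_cyc]
    apply Finsupp.mapDomain_injective (Option.some_injective V)
    rw [← bd_ser g e a b h, ← hz, h2, Finsupp.mapDomain_zero]
  · rintro ⟨z, hz, rfl⟩
    rw [mem_cyc] at hz ⊢
    rw [bd_ser g e a b h, hz, Finsupp.mapDomain_zero]

theorem fam_subE {V E : Type u} (g : E → Sym2 V) (e : E) (a b : V) (h : g e = s(a, b)) :
    FamE g ↔ FamE (subE g e a b) := by
  have hn := nice_ser e (cyc_subE g e a b h)
  constructor
  · rintro ⟨h1, h2⟩
    refine ⟨fun v => ?_, hn.mp h2⟩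
    cases v with
    | none => exact ⟨none, by rw [subE_none]; simp⟩
    | some v =>
      obtain ⟨x, hx⟩ := h1 v
      by_cases hxe : x = e
      · rw [hxe, h, Sym2.mem_iff] at hx
        rcases hx with rfl | rfl
        · exact ⟨some e, by rw [subE_self]; simp⟩
        · exact ⟨none, by rw [subE_none]; simp⟩
      · exact ⟨some x, by rw [subE_ne g e a b hxe, Sym2.mem_map]; exact ⟨v, hx, rfl⟩⟩
  · rintro ⟨h1, h2⟩
    refine ⟨fun v => ?_, hn.mpr h2⟩
    obtain ⟨x, hx⟩ := h1 (some v)
    cases x with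
    | none =>
      rw [subE_none, Sym2.mem_iff] at hx
      rcases hx with hx | hx
      · exact absurd hx (by simp)
      · exact ⟨e, by rw [h, Option.some_injective _ hx]; simp⟩
    | some x =>
      by_cases hxe : x = e
      · rw [hxe, subE_self, Sym2.mem_iff] at hx
        rcases hx with hx | hx
        · exact ⟨e, by rw [h, Option.some_injective _ hx]; simp⟩
        · exact absurd hx (by simp)
      · rw [subE_ne g e a b hxe, Sym2.mem_map] at hx
        obtain ⟨w, hw, hwv⟩ := hx
        exact ⟨x, by rw [← Option.some_injective _ hwv]; exact hw⟩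

theorem subdivide_ends (G : MGraph.{u}) (e : G.E) (a b : G.V) :
    (subdivide G e a b).ends = subE G.ends e a b := by
  funext x
  cases x with
  | none => rfl
  | some y =>
    show (if y = e then s(some a, none) else (G.ends y).map some) = _
    by_cases hy : y = e
    · rw [if_pos hy, hy, subE_self]
    · rw [if_neg hy, subE_ne _ _ _ _ hy]

theorem fam_subdivides {G H : MGraph.{u}} (h : Subdivides G H) : Fam G ↔ Fam H := by
  obtain ⟨e, a, b, hab, ⟨φ⟩⟩ := h
  have h1 : Fam G ↔ Fam (subdivide G e a b) := by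
    have h2 : Fam (subdivide G e a b) ↔ FamE (subE G.ends e a b) := by
      unfold Fam
      rw [subdivide_ends]
      exact Iff.rfl
    rw [h2]
    exact fam_subE G.ends e a b hab
  rw [h1]
  exact ⟨fun h => h.iso φ, fun h => h.iso φ.symm⟩

theorem fam_rtg {G H : MGraph.{u}} (h : Relation.ReflTransGen Subdivides G H) :
    Fam G ↔ Fam H := by
  induction h with
  | refl => exact Iff.rfl
  | tail _ h ih => exact ih.trans (fam_subdivides h)

theorem fam_homeo {G H : MGraph.{u}} (h : Homeomorphic G H) (hG : Fam G) : Fam H := by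
  obtain ⟨K, G', H', h1, ⟨φ⟩, h2, ⟨ψ⟩⟩ := h
  exact ((fam_rtg h2).mp ((fam_rtg h1).mpr (hG.iso φ.symm))).iso ψ

end Graphs

section Degrees

/-- degree of a vertex, loops counted twice -/
noncomputable def degE {V E : Type u} (g : E → Sym2 V) (v : V) : ℕ∞ :=
  Set.encard {x | v ∈ g x} + Set.encard {x | g x = s(v, v)}

theorem degE_subE_none {V E : Type u} (g : E → Sym2 V) (e : E) (a b : V) :
    degE (subE g e a b) none = 2 := by
  have h1 : {x | none ∈ subE g e a b x} = {none, some e} := by
    ext x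
    cases x with
    | none => simp [subE_none]
    | some x =>
      by_cases hx : x = e
      · subst hx; simp [subE_self]
      · simp [subE_ne g e a b hx, hx]
  have h2 : {x | subE g e a b x = s(none, none)} = ∅ := by
    ext x
    cases x with
    | none => simp [subE_none]
    | some x =>
      by_cases hx : x = e
      · subst hx; simp [subE_self]
      · simp only [Set.mem_ofPred_eq, Set.mem_empty_iff_false, iff_false, subE_ne g e a b hx]
        intro h
        have : none ∈ (g x).map some := by rw [h]; simp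
        simp at this
  unfold degE
  rw [h1, h2, Set.encard_pair (by simp), Set.encard_empty, add_zero]

theorem degE_subE_some {V E : Type u} (g : E → Sym2 V) (e : E) (a b : V) (h : g e = s(a, b))
    (v : V) : degE (subE g e a b) (some v) = degE g v := by
  have hinj := Option.some_injective E
  have hS : {x | some v ∈ subE g e a b x} =
      some '' {y | y ≠ e ∧ v ∈ g y} ∪ ({x | x = some e ∧ v = a} ∪ {x | x = none ∧ v = b}) := by
    ext x
    cases x with
    | none => simp [subE_none]
    | some x =>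
      by_cases hx : x = e
      · subst hx; simp [subE_self]
      · simp [subE_ne g e a b hx, hx]
  have hT : {x | subE g e a b x = s(some v, some v)} = some '' {y | y ≠ e ∧ g y = s(v, v)} := by
    ext x
    cases x with
    | none => simp [subE_none]
    | some x =>
      by_cases hx : x = e
      · subst hx; simp [subE_self]
      · simp only [Set.mem_ofPred_eq, subE_ne g e a b hx, Set.mem_image, Option.some.injEq,
          exists_eq_right]
        constructor
        · intro h1
          refine ⟨hx, ?_⟩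
          have : (s(v, v) : Sym2 V).map some = s(some v, some v) := rfl
          rw [← this] at h1
          exact Sym2.map.injective (Option.some_injective V) h1
        · rintro ⟨_, h1⟩
          rw [h1]; rfl
  have hS' : {y | v ∈ g y} = {y | y ≠ e ∧ v ∈ g y} ∪ {y | y = e ∧ (v = a ∨ v = b)} := by
    ext x
    by_cases hx : x = e
    · subst hx; simp [h]
    · simp [hx]
  have hT' : {y | g y = s(v, v)} =
      {y | y ≠ e ∧ g y = s(v, v)} ∪ {y | y = e ∧ (v = a ∧ v = b)} := by
    ext x
    by_cases hx : x = e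
    · subst hx
      simp only [Set.mem_ofPred_eq, Set.mem_union, ne_eq, not_true_eq_false, false_and, true_and,
        false_or, h, Sym2.eq_iff]
      constructor
      · rintro (⟨h1, h2⟩ | ⟨h1, h2⟩)
        · exact ⟨h1.symm, h2.symm⟩
        · exact ⟨h1.symm, h2.symm⟩
      · rintro ⟨h1, h2⟩
        exact Or.inl ⟨h1.symm, h2.symm⟩
    · simp [hx]
  have d1 : Disjoint (some '' {y | y ≠ e ∧ v ∈ g y})
      ({x : Option E | x = some e ∧ v = a} ∪ {x | x = none ∧ v = b}) := by
    rw [Set.disjoint_left]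
    rintro x ⟨y, hy, rfl⟩ (⟨hx, _⟩ | ⟨hx, _⟩)
    · exact hy.1 (hinj hx)
    · exact absurd hx (by simp)
  have d2 : Disjoint {x : Option E | x = some e ∧ v = a} {x | x = none ∧ v = b} := by
    rw [Set.disjoint_left]
    rintro x ⟨hx, _⟩ ⟨hx', _⟩
    rw [hx] at hx'
    exact absurd hx' (by simp)
  have d3 : Disjoint {y | y ≠ e ∧ v ∈ g y} {y | y = e ∧ (v = a ∨ v = b)} := by
    rw [Set.disjoint_left]
    rintro x ⟨hx, _⟩ ⟨hx', _⟩
    exact hx hx'
  have d4 : Disjoint {y | y ≠ e ∧ g y = s(v, v)} {y | y = e ∧ (v = a ∧ v = b)} := by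
    rw [Set.disjoint_left]
    rintro x ⟨hx, _⟩ ⟨hx', _⟩
    exact hx hx'
  unfold degE
  rw [hS, hT, hS', hT', Set.encard_union_eq d1, Set.encard_union_eq d2, Set.encard_union_eq d3,
    Set.encard_union_eq d4, hinj.encard_image, hinj.encard_image]
  by_cases ha : v = a
  · by_cases hb : v = b
    · have e1 : {x : Option E | x = some e ∧ v = a} = {some e} := by ext x; simp [ha]
      have e2 : {x : Option E | x = none ∧ v = b} = {none} := by ext x; simp [hb]
      have e3 : {y | y = e ∧ (v = a ∨ v = b)} = {e} := by ext x; simp [ha]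
      have e4 : {y | y = e ∧ (v = a ∧ v = b)} = {e} := by
        ext x
        constructor
        · rintro ⟨h1, _⟩; exact h1
        · intro h1; exact ⟨h1, ha, hb⟩
      rw [e1, e2, e3, e4]
      simp only [Set.encard_singleton]
      ring
    · have e1 : {x : Option E | x = some e ∧ v = a} = {some e} := by ext x; simp [ha]
      have e2 : {x : Option E | x = none ∧ v = b} = ∅ := by
        ext x
        simp only [Set.mem_ofPred_eq, Set.mem_empty_iff_false, iff_false, not_and]
        exact fun _ => hb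
      have e3 : {y | y = e ∧ (v = a ∨ v = b)} = {e} := by ext x; simp [ha]
      have e4 : {y | y = e ∧ (v = a ∧ v = b)} = ∅ := by
        ext x
        simp only [Set.mem_ofPred_eq, Set.mem_empty_iff_false, iff_false, not_and]
        exact fun _ _ => hb
      rw [e1, e2, e3, e4]
      simp
  · by_cases hb : v = b
    · have e1 : {x : Option E | x = some e ∧ v = a} = ∅ := by
        ext x
        simp only [Set.mem_ofPred_eq, Set.mem_empty_iff_false, iff_false, not_and]
        exact fun _ => ha
      have e2 : {x : Option E | x = none ∧ v = b} = {none} := by ext x; simp [hb]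
      have e3 : {y | y = e ∧ (v = a ∨ v = b)} = {e} := by ext x; simp [hb]
      have e4 : {y | y = e ∧ (v = a ∧ v = b)} = ∅ := by
        ext x
        simp only [Set.mem_ofPred_eq, Set.mem_empty_iff_false, iff_false, not_and]
        exact fun _ h1 => absurd h1 ha
      rw [e1, e2, e3, e4]
      simp
    · have e1 : {x : Option E | x = some e ∧ v = a} = ∅ := by
        ext x
        simp only [Set.mem_ofPred_eq, Set.mem_empty_iff_false, iff_false, not_and]
        exact fun _ => ha
      have e2 : {x : Option E | x = none ∧ v = b} = ∅ := by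
        ext x
        simp only [Set.mem_ofPred_eq, Set.mem_empty_iff_false, iff_false, not_and]
        exact fun _ => hb
      have e3 : {y | y = e ∧ (v = a ∨ v = b)} = ∅ := by
        ext x
        simp only [Set.mem_ofPred_eq, Set.mem_empty_iff_false, iff_false, not_and]
        rintro _ (h1 | h1)
        · exact ha h1
        · exact hb h1
      have e4 : {y | y = e ∧ (v = a ∧ v = b)} = ∅ := by
        ext x
        simp only [Set.mem_ofPred_eq, Set.mem_empty_iff_false, iff_false, not_and]
        exact fun _ h1 => absurd h1 ha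
      rw [e1, e2, e3, e4]
      simp

/-- the set of degrees different from two -/
def degs (G : MGraph.{u}) : Set ℕ∞ := {d | d ≠ 2 ∧ ∃ v, degE G.ends v = d}

theorem degs_iso {G H : MGraph.{u}} (φ : Iso G H) : degs G = degs H := by
  have key : ∀ v, degE H.ends (φ.onV v) = degE G.ends v := by
    intro v
    unfold degE
    have h1 : {x | φ.onV v ∈ H.ends x} = φ.onE '' {x | v ∈ G.ends x} := by
      ext x
      obtain ⟨y, rfl⟩ := φ.onE.surjective x
      rw [φ.onE.injective.mem_set_image]
      simp only [Set.mem_ofPred_eq, φ.ends_eq, Sym2.mem_map]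
      constructor
      · rintro ⟨w, hw, h⟩
        rwa [← φ.onV.injective h]
      · intro h; exact ⟨v, h, rfl⟩
    have h2 : {x | H.ends x = s(φ.onV v, φ.onV v)} = φ.onE '' {x | G.ends x = s(v, v)} := by
      ext x
      obtain ⟨y, rfl⟩ := φ.onE.surjective x
      rw [φ.onE.injective.mem_set_image]
      simp only [Set.mem_ofPred_eq, φ.ends_eq]
      have : (s(v, v) : Sym2 G.V).map φ.onV = s(φ.onV v, φ.onV v) := rfl
      rw [← this]
      exact (Sym2.map.injective φ.onV.injective).eq_iff
    rw [h1, h2, φ.onE.injective.encard_image, φ.onE.injective.encard_image]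
  ext d
  constructor
  · rintro ⟨hd, v, hv⟩
    exact ⟨hd, φ.onV v, by rw [key, hv]⟩
  · rintro ⟨hd, v, hv⟩
    refine ⟨hd, φ.onV.symm v, ?_⟩
    rw [← key, Equiv.apply_symm_apply, hv]

theorem degs_subdivides {G H : MGraph.{u}} (h : Subdivides G H) : degs G = degs H := by
  obtain ⟨e, a, b, hab, ⟨φ⟩⟩ := h
  rw [← degs_iso φ]
  ext d
  constructor
  · rintro ⟨hd, v, hv⟩
    refine ⟨hd, (some v : Option G.V), ?_⟩
    rw [subdivide_ends]
    exact (degE_subE_some G.ends e a b hab v).trans hv
  · rintro ⟨hd, v, hv⟩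
    rw [subdivide_ends] at hv
    have hv' : degE (subE G.ends e a b) v = d := hv
    cases v with
    | none =>
      exact absurd ((degE_subE_none G.ends e a b).symm.trans hv').symm hd
    | some v =>
      exact ⟨hd, v, (degE_subE_some G.ends e a b hab v).symm.trans hv'⟩

theorem degs_rtg {G H : MGraph.{u}} (h : Relation.ReflTransGen Subdivides G H) :
    degs G = degs H := by
  induction h with
  | refl => rfl
  | tail _ h ih => exact ih.trans (degs_subdivides h)

theorem degs_homeo {G H : MGraph.{u}} (h : Homeomorphic G H) : degs G = degs H := by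
  obtain ⟨K, G', H', h1, ⟨φ⟩, h2, ⟨ψ⟩⟩ := h
  rw [← degs_iso φ, ← degs_iso ψ, ← degs_rtg h1, ← degs_rtg h2]

end Degrees

section Examples

theorem mapDomain_uniq {α β : Type u} (f : α → β) (x : α) (h : ∀ y, f y = f x → y = x)
    (z : α →₀ ZMod 2) : Finsupp.mapDomain f z (f x) = z x := by
  induction z using Finsupp.induction_linear with
  | zero => simp
  | add p q hp hq => rw [Finsupp.mapDomain_add, Finsupp.add_apply, hp, hq, Finsupp.add_apply]
  | single a c =>
    rw [Finsupp.mapDomain_single]
    by_cases ha : a = x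
    · rw [ha, Finsupp.single_eq_same, Finsupp.single_eq_same]
    · rw [Finsupp.single_eq_of_ne (fun h' => ha (h a h'.symm)),
        Finsupp.single_eq_of_ne (fun h' => ha h'.symm)]

theorem mapDomain_same {α β : Type u} (f f' : α → β) (v : β) (h : ∀ y, f y = v ↔ f' y = v)
    (z : α →₀ ZMod 2) : Finsupp.mapDomain f z v = Finsupp.mapDomain f' z v := by
  induction z using Finsupp.induction_linear with
  | zero => simp
  | add p q hp hq =>
    rw [Finsupp.mapDomain_add, Finsupp.mapDomain_add, Finsupp.add_apply, Finsupp.add_apply, hp, hq]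
  | single a c =>
    rw [Finsupp.mapDomain_single, Finsupp.mapDomain_single]
    by_cases ha : f a = v
    · rw [ha, (h a).mp ha]
    · rw [Finsupp.single_eq_of_ne (fun h' => ha h'.symm),
        Finsupp.single_eq_of_ne (fun h' => ha ((h a).mpr h'.symm))]

theorem bd_eq {V E : Type u} (g : E → Sym2 V) (a b : E → V) (h : ∀ x, g x = s(a x, b x))
    (z : E →₀ ZMod 2) : bd g z = Finsupp.mapDomain a z + Finsupp.mapDomain b z := by
  induction z using Finsupp.induction_linear with
  | zero => simp
  | add p q hp hq =>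
    rw [map_add, hp, hq, Finsupp.mapDomain_add, Finsupp.mapDomain_add]
    abel
  | single x c =>
    have : (Finsupp.single x c : E →₀ ZMod 2) = c • Finsupp.single x 1 := by simp
    rw [this, map_smul, bd_single, h, endsSum_mk, Finsupp.mapDomain_smul, Finsupp.mapDomain_smul,
      Finsupp.mapDomain_single, Finsupp.mapDomain_single, smul_add]

/-- the pairs (cycle length, position) -/
abbrev Pos (N : ℕ) : Type := Σ j : {j : ℕ // N < j}, ZMod j.1

/-- vertices of the example -/
abbrev VN (N : ℕ) : Type u := ULift.{u} (Option (Pos N))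

/-- edges of the example -/
abbrev EN (N : ℕ) : Type u := ULift.{u} (Fin N ⊕ Pos N)

/-- first end -/
def aN (N : ℕ) : EN.{u} N → VN.{u} N
  | ⟨Sum.inl _⟩ => ⟨none⟩
  | ⟨Sum.inr p⟩ => ⟨some p⟩

/-- second end -/
def bN (N : ℕ) : EN.{u} N → VN.{u} N
  | ⟨Sum.inl _⟩ => ⟨none⟩
  | ⟨Sum.inr p⟩ => ⟨some ⟨p.1, p.2 + 1⟩⟩

/-- `N` loops at one vertex, and disjoint cycles of all lengths larger than `N` -/
def gN (N : ℕ) (x : EN.{u} N) : Sym2 (VN.{u} N) := s(aN N x, bN N x)

/-- the edges of the cycle of length `j` -/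
def DN (N j : ℕ) : Set (EN.{u} N) := {x | ∃ p : Pos N, x = ⟨Sum.inr p⟩ ∧ p.1.1 = j}

theorem mem_cyc_gN (N : ℕ) (z : EN.{u} N →₀ ZMod 2) :
    z ∈ cyc (gN.{u} N) ↔ ∀ (j : {j : ℕ // N < j}) (t : ZMod j.1),
      z ⟨Sum.inr ⟨j, t + 1⟩⟩ = z ⟨Sum.inr ⟨j, t⟩⟩ := by
  have hchar : ∀ p q : ZMod 2, p + q = 0 ↔ p = q := by decide
  have hval : ∀ (j : {j : ℕ // N < j}) (t : ZMod j.1),
      bd (gN.{u} N) z ⟨some ⟨j, t + 1⟩⟩ = z ⟨Sum.inr ⟨j, t + 1⟩⟩ + z ⟨Sum.inr ⟨j, t⟩⟩ := by
    intro j t
    rw [bd_eq (gN N) (aN N) (bN N) (fun _ => rfl), Finsupp.add_apply]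
    congr 1
    · have : (⟨some ⟨j, t + 1⟩⟩ : VN.{u} N) = aN N ⟨Sum.inr ⟨j, t + 1⟩⟩ := rfl
      rw [this]
      apply mapDomain_uniq
      rintro ⟨y | y⟩ hy
      · exact absurd (congrArg ULift.down hy) (by simp [aN])
      · have := congrArg ULift.down hy
        simp only [aN, Option.some.injEq] at this
        rw [this]
    · have : (⟨some ⟨j, t + 1⟩⟩ : VN.{u} N) = bN N ⟨Sum.inr ⟨j, t⟩⟩ := rfl
      rw [this]
      apply mapDomain_uniq
      rintro ⟨y | y⟩ hy
      · exact absurd (congrArg ULift.down hy) (by simp [bN])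
      · have h1 := congrArg ULift.down hy
        simp only [bN, Option.some.injEq] at h1
        obtain ⟨k, s⟩ := y
        simp only [Sigma.mk.injEq] at h1
        obtain ⟨rfl, h2⟩ := h1
        have h3 := eq_of_heq h2
        simp only [add_left_inj] at h3
        rw [h3]
  constructor
  · intro hz j t
    rw [← hchar, ← hval, mem_cyc.mp hz]
    rfl
  · intro h
    rw [mem_cyc]
    ext v
    obtain ⟨v⟩ := v
    cases v with
    | none =>
      rw [bd_eq (gN N) (aN N) (bN N) (fun _ => rfl), Finsupp.add_apply, Finsupp.zero_apply, hchar]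
      apply mapDomain_same
      rintro ⟨y | y⟩
      · simp [aN, bN]
      · simp [aN, bN]
    | some p =>
      obtain ⟨j, t⟩ := p
      have : t = (t - 1) + 1 := by ring
      rw [this, hval, Finsupp.zero_apply, hchar]
      exact h j (t - 1)

theorem const_of_succ {n : ℕ} (hn : 0 < n) {f : ZMod n → ZMod 2} (h : ∀ t, f (t + 1) = f t)
    (s t : ZMod n) : f s = f t := by
  have : NeZero n := ⟨by omega⟩
  have key : ∀ k : ℕ, f (k : ZMod n) = f 0 := by
    intro k
    induction k with
    | zero => simp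
    | succ k ih => rw [Nat.cast_succ, h, ih]
  rw [← ZMod.natCast_zmod_val s, ← ZMod.natCast_zmod_val t, key, key]

theorem DN_eq (N : ℕ) {j : ℕ} (hj : N < j) :
    DN.{u} N j = Set.range (fun t : ZMod j => (⟨Sum.inr ⟨⟨j, hj⟩, t⟩⟩ : EN.{u} N)) := by
  ext x
  constructor
  · rintro ⟨⟨⟨k, hk⟩, t⟩, rfl, rfl⟩
    exact ⟨t, rfl⟩
  · rintro ⟨t, rfl⟩
    exact ⟨_, rfl, rfl⟩

theorem DN_inj (N : ℕ) {j : ℕ} (hj : N < j) :
    Function.Injective (fun t : ZMod j => (⟨Sum.inr ⟨⟨j, hj⟩, t⟩⟩ : EN.{u} N)) := by
  intro s t h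
  have := congrArg ULift.down h
  simpa using this

theorem DN_fin (N : ℕ) {j : ℕ} (hj : N < j) : (DN.{u} N j).Finite := by
  have : NeZero j := ⟨by omega⟩
  rw [DN_eq N hj]
  exact Set.finite_range _

theorem cycle_mem (N : ℕ) {j : ℕ} (hj : N < j) :
    ∃ z ∈ cyc (gN.{u} N), ∀ x, z x ≠ 0 ↔ x ∈ DN.{u} N j := by
  refine ⟨Finsupp.onFinset (DN_fin.{u} N hj).toFinset (fun x => if x ∈ DN.{u} N j then 1 else 0)
    (fun x hx => ?_), ?_, fun x => ?_⟩
  · rw [Set.Finite.mem_toFinset]
    by_contra hcon
    rw [if_neg hcon] at hx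
    exact hx rfl
  · rw [mem_cyc_gN]
    intro k t
    rw [Finsupp.onFinset_apply, Finsupp.onFinset_apply]
    by_cases hk : k.1 = j
    · rw [if_pos ⟨_, rfl, hk⟩, if_pos ⟨_, rfl, hk⟩]
    · rw [if_neg, if_neg]
      · rintro ⟨p, hp, hpj⟩
        have := congrArg ULift.down hp
        simp only [Sum.inr.injEq] at this
        rw [← this] at hpj
        exact hk hpj
      · rintro ⟨p, hp, hpj⟩
        have := congrArg ULift.down hp
        simp only [Sum.inr.injEq] at this
        rw [← this] at hpj
        exact hk hpj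
  · rw [Finsupp.onFinset_apply]
    split_ifs with h
    · simp [h]
    · simp [h]

theorem good_gN (N : ℕ) : Good (cyc (gN.{u} N)) Set.univ N (DN N) := by
  have hrem : rem Set.univ N (DN.{u} N) =
      Set.range (fun i : Fin N => (⟨Sum.inl i⟩ : EN.{u} N)) := by
    ext x
    constructor
    · rintro ⟨_, h2⟩
      obtain ⟨x | x⟩ := x
      · exact ⟨x, rfl⟩
      · exact absurd ⟨x, rfl, rfl⟩ (h2 x.1.1 x.1.2)
    · rintro ⟨i, rfl⟩
      refine ⟨trivial, ?_⟩
      rintro j _ ⟨p, hp, _⟩
      exact absurd (congrArg ULift.down hp) (by simp)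
  have hinl : ∀ i : Fin N, (Finsupp.single ⟨Sum.inl i⟩ 1 : EN.{u} N →₀ ZMod 2) ∈
      cyc (gN.{u} N) := by
    intro i
    rw [mem_cyc_gN]
    intro j t
    rw [Finsupp.single_eq_of_ne, Finsupp.single_eq_of_ne]
    · intro h; exact absurd (congrArg ULift.down h) (by simp)
    · intro h; exact absurd (congrArg ULift.down h) (by simp)
  refine ⟨⟨?_, ?_, ?_, ?_⟩, ?_, ?_, ?_⟩
  · intro j _; exact Set.subset_univ _
  · intro j hj
    refine ⟨cycle_mem N hj, ?_⟩
    intro z hz hne hsub x hx
    rw [mem_cyc_gN] at hz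
    have : ∃ y, z y ≠ 0 := by
      by_contra hcon
      push Not at hcon
      exact hne (Finsupp.ext hcon)
    obtain ⟨y, hy⟩ := this
    have hyD := hsub y hy
    rw [DN_eq N hj] at hyD hx
    obtain ⟨s, rfl⟩ := hyD
    obtain ⟨t, rfl⟩ := hx
    have := const_of_succ (n := j) (by omega) (f := fun t => z ⟨Sum.inr ⟨⟨j, hj⟩, t⟩⟩)
      (hz ⟨j, hj⟩) t s
    intro h0
    exact hy (this.symm.trans h0)
  · intro j hj
    have : NeZero j := ⟨by omega⟩
    rw [DN_eq N hj, ← Set.image_univ, Set.ncard_image_of_injective _ (DN_inj N hj),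
      Set.ncard_univ, Nat.card_zmod]
  · intro j hj z hz
    rw [mem_ZS] at hz
    have hz' := (mem_cyc_gN N z).mp hz.1
    rw [mem_cyc_gN]
    intro k t
    rw [res_apply, res_apply]
    by_cases hk : k.1 = j
    · rw [if_pos ⟨_, rfl, hk⟩, if_pos ⟨_, rfl, hk⟩]
      exact hz' k t
    · rw [if_neg, if_neg]
      · rintro ⟨p, hp, hpj⟩
        have := congrArg ULift.down hp
        simp only [Sum.inr.injEq] at this
        rw [← this] at hpj
        exact hk hpj
      · rintro ⟨p, hp, hpj⟩
        have := congrArg ULift.down hp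
        simp only [Sum.inr.injEq] at this
        rw [← this] at hpj
        exact hk hpj
  · rw [hrem]; exact Set.finite_range _
  · have hinj : Function.Injective (fun i : Fin N => (⟨Sum.inl i⟩ : EN.{u} N)) := by
      intro i k h
      have := congrArg ULift.down h
      simpa using this
    have hZS : ZS (cyc (gN.{u} N)) (rem Set.univ N (DN.{u} N)) =
        Finsupp.supported (ZMod 2) (ZMod 2) (rem Set.univ N (DN.{u} N)) := by
      apply le_antisymm inf_le_right
      intro z hz
      refine ⟨?_, hz⟩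
      rw [Finsupp.mem_supported] at hz
      show z ∈ cyc (gN.{u} N)
      rw [mem_cyc_gN]
      intro j t
      have h0 : ∀ s : ZMod j.1, z ⟨Sum.inr ⟨j, s⟩⟩ = 0 := by
        intro s
        by_contra hne
        have h1 : (⟨Sum.inr ⟨j, s⟩⟩ : EN.{u} N) ∈ (z.support : Set (EN.{u} N)) := by
          simpa using hne
        have h2 := hz h1
        exact h2.2 j.1 j.2 ⟨_, rfl, rfl⟩
      rw [h0, h0]
    unfold rk
    rw [hZS]
    have hfin : Finite (rem Set.univ N (DN.{u} N)) := by
      rw [hrem]; exact Set.finite_range _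
    rw [LinearEquiv.finrank_eq (Finsupp.supportedEquivFinsupp (R := ZMod 2) (M := ZMod 2)
      (rem Set.univ N (DN.{u} N)))]
    have : Fintype (rem Set.univ N (DN.{u} N)) := Fintype.ofFinite _
    rw [Module.finrank_finsupp_self, ← Nat.card_eq_fintype_card, Nat.card_coe_set_eq, hrem,
      ← Set.image_univ, Set.ncard_image_of_injective _ hinj, Set.ncard_univ, Nat.card_fin]
  · rintro ⟨x | x⟩ _
    · refine ⟨Finsupp.single ⟨Sum.inl x⟩ 1, mem_ZS.mpr ⟨hinl x, fun _ _ => trivial⟩, ?_⟩
      rw [Finsupp.single_eq_same]; exact one_ne_zero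
    · obtain ⟨z, hz, hzD⟩ := cycle_mem.{u} N x.1.2
      exact ⟨z, mem_ZS.mpr ⟨hz, fun _ _ => trivial⟩, (hzD _).mpr ⟨x, rfl, rfl⟩⟩

/-- the example as a graph -/
def GN (N : ℕ) : MGraph.{u} := ⟨VN N, EN N, gN N⟩

theorem fam_GN {N : ℕ} (hN : 2 ≤ N) : Fam (GN.{u} N) := by
  refine ⟨?_, N, DN N, good_gN N⟩
  rintro ⟨v⟩
  cases v with
  | none =>
    exact ⟨⟨Sum.inl ⟨0, by omega⟩⟩, by show _ ∈ gN N _; unfold gN; simp [aN]⟩
  | some p =>
    exact ⟨⟨Sum.inr p⟩, by show _ ∈ gN N _; unfold gN; simp [aN]⟩

theorem degs_GN {N : ℕ} (hN : 2 ≤ N) : degs (GN.{u} N) = {((2 * N : ℕ) : ℕ∞)} := by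
  have h1 : degE (gN.{u} N) ⟨none⟩ = ((2 * N : ℕ) : ℕ∞) := by
    have hinj : Function.Injective (fun i : Fin N => (⟨Sum.inl i⟩ : EN.{u} N)) := by
      intro i k h
      have := congrArg ULift.down h
      simpa using this
    have e1 : {x | (⟨none⟩ : VN.{u} N) ∈ gN N x} =
        Set.range (fun i : Fin N => (⟨Sum.inl i⟩ : EN.{u} N)) := by
      ext x
      obtain ⟨x | x⟩ := x
      · simp [gN, aN]
      · simp only [Set.mem_ofPred_eq, gN, Sym2.mem_iff, Set.mem_range]
        constructor
        · rintro (h | h)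
          · exact absurd (congrArg ULift.down h) (by simp [aN])
          · exact absurd (congrArg ULift.down h) (by simp [bN])
        · rintro ⟨i, h⟩
          exact absurd (congrArg ULift.down h) (by simp)
    have e2 : {x | gN N x = s((⟨none⟩ : VN.{u} N), ⟨none⟩)} =
        Set.range (fun i : Fin N => (⟨Sum.inl i⟩ : EN.{u} N)) := by
      ext x
      obtain ⟨x | x⟩ := x
      · simp [gN, aN, bN]
      · simp only [Set.mem_ofPred_eq, gN, Set.mem_range]
        constructor
        · intro h
          rw [Sym2.eq_iff] at h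
          rcases h with ⟨h, _⟩ | ⟨h, _⟩
          · exact absurd (congrArg ULift.down h) (by simp [aN])
          · exact absurd (congrArg ULift.down h) (by simp [aN])
        · rintro ⟨i, h⟩
          exact absurd (congrArg ULift.down h) (by simp)
    unfold degE
    rw [e1, e2, ← Set.image_univ, hinj.encard_image, Set.encard_univ, ENat.card_eq_coe_fintype_card,
      Fintype.card_fin]
    push_cast
    ring
  have h2 : ∀ p : Pos N, degE (gN.{u} N) ⟨some p⟩ = 2 := by
    rintro ⟨⟨j, hj⟩, t⟩
    have hne1 : (1 : ZMod j) ≠ 0 := by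
      have : Fact (1 < j) := ⟨by omega⟩
      exact one_ne_zero
    have e1 : {x | (⟨some ⟨⟨j, hj⟩, t⟩⟩ : VN.{u} N) ∈ gN N x} =
        {(⟨Sum.inr ⟨⟨j, hj⟩, t⟩⟩ : EN.{u} N), ⟨Sum.inr ⟨⟨j, hj⟩, t - 1⟩⟩} := by
      ext x
      obtain ⟨x | x⟩ := x
      · simp only [Set.mem_ofPred_eq, gN, Sym2.mem_iff, Set.mem_insert_iff,
          Set.mem_singleton_iff]
        constructor
        · rintro (h | h)
          · exact absurd (congrArg ULift.down h) (by simp [aN])
          · exact absurd (congrArg ULift.down h) (by simp [bN])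
        · rintro (h | h)
          · exact absurd (congrArg ULift.down h) (by simp)
          · exact absurd (congrArg ULift.down h) (by simp)
      · obtain ⟨⟨k, hk⟩, s⟩ := x
        simp only [Set.mem_ofPred_eq, gN, Sym2.mem_iff, Set.mem_insert_iff,
          Set.mem_singleton_iff]
        constructor
        · rintro (h | h)
          · have h3 := congrArg ULift.down h
            simp only [aN, Option.some.injEq] at h3
            left
            rw [h3]
          · have h3 := congrArg ULift.down h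
            simp only [bN, Option.some.injEq, Sigma.mk.injEq, Subtype.mk.injEq] at h3
            obtain ⟨rfl, h4⟩ := h3
            right
            have h5 := eq_of_heq h4
            rw [h5]
            simp
        · rintro (h | h)
          · have h3 := congrArg ULift.down h
            simp only [Sum.inr.injEq] at h3
            left
            rw [h3]; rfl
          · have h3 := congrArg ULift.down h
            simp only [Sum.inr.injEq] at h3
            right
            rw [h3]
            simp [bN]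
    have e2 : {x | gN N x = s((⟨some ⟨⟨j, hj⟩, t⟩⟩ : VN.{u} N), ⟨some ⟨⟨j, hj⟩, t⟩⟩)} = ∅ := by
      ext x
      simp only [Set.mem_ofPred_eq, Set.mem_empty_iff_false, iff_false]
      obtain ⟨x | x⟩ := x
      · intro h
        have : aN N (⟨Sum.inl x⟩ : EN.{u} N) ∈ gN N ⟨Sum.inl x⟩ := by unfold gN; simp
        rw [h] at this
        simp [aN] at this
      · intro h
        obtain ⟨⟨k, hk⟩, s⟩ := x
        have h3 : aN N (⟨Sum.inr ⟨⟨k, hk⟩, s⟩⟩ : EN.{u} N) = ⟨some ⟨⟨j, hj⟩, t⟩⟩ := by
          have : aN N (⟨Sum.inr ⟨⟨k, hk⟩, s⟩⟩ : EN.{u} N) ∈ gN N ⟨Sum.inr ⟨⟨k, hk⟩, s⟩⟩ := by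
            unfold gN; simp
          rw [h] at this
          simpa using this
        have h4 : bN N (⟨Sum.inr ⟨⟨k, hk⟩, s⟩⟩ : EN.{u} N) = ⟨some ⟨⟨j, hj⟩, t⟩⟩ := by
          have : bN N (⟨Sum.inr ⟨⟨k, hk⟩, s⟩⟩ : EN.{u} N) ∈ gN N ⟨Sum.inr ⟨⟨k, hk⟩, s⟩⟩ := by
            unfold gN; simp
          rw [h] at this
          simpa using this
        rw [← h3] at h4
        have h5 := congrArg ULift.down h4
        simp only [aN, bN, Option.some.injEq, Sigma.mk.injEq, heq_eq_eq, true_and,
          add_eq_left] at h5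
        have : Fact (1 < k) := ⟨by omega⟩
        exact one_ne_zero h5
    unfold degE
    rw [e1, e2, Set.encard_pair, Set.encard_empty, add_zero]
    intro h
    have h3 := congrArg ULift.down h
    simp only [Sum.inr.injEq, Sigma.mk.injEq, heq_eq_eq, true_and] at h3
    apply hne1
    have : t - (t - 1) = 0 := by rw [← h3]; ring
    rw [sub_sub_cancel] at this
    exact this
  ext d
  constructor
  · rintro ⟨hd, ⟨v⟩, hv⟩
    cases v with
    | none => exact hv.symm.trans h1
    | some p => exact absurd (hv.symm.trans (h2 p)) hd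
  · intro hd
    have hd' : d = ((2 * N : ℕ) : ℕ∞) := hd
    refine ⟨?_, ⟨none⟩, ?_⟩
    · rw [hd']
      intro h
      have : (2 * N : ℕ) = 2 := by exact_mod_cast h
      omega
    · rw [hd']; exact h1

end Examples

theorem infinite_classes : Infinite (HomeoClasses (Fam.{u})) := by
  let inv : HomeoClasses (Fam.{u}) → Set ℕ∞ :=
    Quot.lift (fun G => degs G.1) (fun _ _ h => degs_homeo h)
  refine Infinite.of_injective
    (fun n : ℕ => (Quot.mk _ ⟨GN.{u} (n + 2), fam_GN (by omega)⟩ : HomeoClasses (Fam.{u}))) ?_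
  intro m n h
  have h1 : inv (Quot.mk _ ⟨GN.{u} (m + 2), fam_GN (by omega)⟩) =
      inv (Quot.mk _ ⟨GN.{u} (n + 2), fam_GN (by omega)⟩) := congrArg inv h
  have h2 : degs (GN.{u} (m + 2)) = degs (GN.{u} (n + 2)) := h1
  rw [degs_GN (by omega), degs_GN (by omega), Set.singleton_eq_singleton_iff] at h2
  have h3 : 2 * (m + 2) = 2 * (n + 2) := by exact_mod_cast h2
  omega

/-- There is a generalized matroidal family of graphs, closed under homeomorphism, with
infinitely many homeomorphism classes. Moreover every member has an edge and no isolated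
vertices. -/
theorem result : ∃ P : MGraph.{u} → Prop,
    IsGenMatroidalFamily P ∧
    (∀ G H : MGraph.{u}, P G → Homeomorphic G H → P H) ∧
    Infinite (HomeoClasses P) ∧
    (∀ G : MGraph.{u}, P G → Nonempty G.E ∧ ∀ v : G.V, ∃ e : G.E, v ∈ G.ends e) := by
  refine ⟨Fam, ⟨⟨GN 2, fam_GN (le_refl _)⟩, circuitAxioms_fam⟩,
    fun G H hG h => fam_homeo h hG, infinite_classes, ?_⟩
  intro G hG
  refine ⟨?_, hG.1⟩
  obtain ⟨_, N, D, h⟩ := hG
  have hne : (D (N + 1)).Nonempty := by
    rw [← Set.ncard_pos (h.fin_D (by omega)), h.card (N + 1) (by omega)]; omega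
  obtain ⟨x, _⟩ := hne
  exact ⟨x⟩

end Pool.Agent.Results.MP_221c76_co.InfClasses
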